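import Mathlib
import Pool.Agent.SWT45.Stmts

/-!
# The sign of a labelling: existence and uniqueness
-/

set_option autoImplicit false

namespace Pool.Agent.SWT58

open Equiv Pool.Agent.SWT80 Pool.Agent.SWT45
open scoped Classical

section

variable {V : Type} {e r : Perm V} {o p : V → Bool}

/-- The directed odd pairs. -/
def BB (r : Perm V) (o : V → Bool) (v : V) : Prop := o v = true ∧ o (r v) = true

theorem o3_cases (h3 : ∀ v, r (r (r v)) = v) (hp : Par2 e r o p) {v : V} (hv : o v = true) :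
    (BB r o v ∧ o (r (r v)) = false) ∨ (BB r o (r (r v)) ∧ o (r v) = false) := by
  have h1 := hp.o3 v
  rw [hv] at h1
  unfold BB
  rw [h3]
  cases h2 : o (r v) <;> cases h4 : o (r (r v)) <;> simp_all

theorem IsK.mem {κ : Perm V} (k : IsK e r o p κ) {v : V} (h1 : o v = true) (h2 : p v = true) :
    BB r o (κ v) := ⟨(k.map v h1 h2).1, (k.map v h1 h2).2.1⟩

/-- The preimage of a directed odd pair. -/
theorem IsK.pre {κ : Perm V} (he : ∀ v, e (e v) = v) (hp : Par2 e r o p) (k : IsK e r o p κ) {b : V} (hb : BB r o b) :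
    ∃ v, o v = true ∧ p v = true ∧ κ v = b := by
  obtain ⟨v, rfl⟩ := κ.surjective b
  have ov : o v = true := by
    by_contra h
    rw [Bool.not_eq_true] at h
    have h1 := k.fix v h
    have h2 := hb.1
    rw [h1, h] at h2
    exact Bool.false_ne_true h2
  refine ⟨v, ov, ?_, rfl⟩
  by_contra h
  rw [Bool.not_eq_true] at h
  -- then `e v` is positive and `κ v = r (κ (e v))`
  have h1 : o (e v) = true := by rw [hp.oe, ov]
  have h2 : p (e v) = true := by rw [hp.pe v ov, h]; rfl
  obtain ⟨h4, h5, h6⟩ := k.map (e v) h1 h2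
  rw [he] at h6
  have h7 := hp.o3 (κ (e v))
  rw [h4, h5, ← h6, hb.2] at h7
  simp at h7

theorem sign_eq [Fintype V] (he : ∀ v, e (e v) = v) (h3 : ∀ v, r (r (r v)) = v)
    (hp : Par2 e r o p) {κ κ₀ : Perm V} (k : IsK e r o p κ) (k₀ : IsK e r o p κ₀) :
    Perm.sign κ = Perm.sign κ₀ := by
  obtain ⟨σ, hσ⟩ : ∃ σ : Perm V, σ = κ * κ₀⁻¹ := ⟨_, rfl⟩
  have a1 : ∀ b, BB r o b → BB r o (σ b) ∧ σ (r b) = r (σ b) := by
    intro b hb
    obtain ⟨v, v1, v2, rfl⟩ := IsK.pre he hp k₀ hb
    have h1 : σ (κ₀ v) = κ v := by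
      rw [hσ, Perm.mul_apply]
      exact congrArg κ (κ₀.symm_apply_apply v)
    have h2 : σ (r (κ₀ v)) = κ (e v) := by
      rw [← (k₀.map v v1 v2).2.2, hσ, Perm.mul_apply]
      exact congrArg κ (κ₀.symm_apply_apply (e v))
    rw [h1, h2]
    exact ⟨IsK.mem k v1 v2, (k.map v v1 v2).2.2⟩
  have a2 : ∀ b, BB r o (σ b) → BB r o b := by
    intro b hb
    obtain ⟨v, v1, v2, h1⟩ := IsK.pre he hp k hb
    have h2 : b = κ₀ v := by
      rw [hσ, Perm.mul_apply] at h1
      have h4 := κ.injective h1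
      rw [h4]
      exact (κ₀.apply_symm_apply b).symm
    rw [h2]
    exact IsK.mem k₀ v1 v2
  have a3 : ∀ v, o v = false → σ v = v := by
    intro v hv
    have h1 : κ₀⁻¹ v = v := by rw [Perm.inv_eq_iff_eq, k₀.fix v hv]
    rw [hσ, Perm.mul_apply, h1, k.fix v hv]
  have a4 : ∀ v, BB r o (σ v) ↔ BB r o v := fun v => ⟨a2 v, fun h => (a1 v h).1⟩
  -- the part of `σ` on the directed pairs
  obtain ⟨τ, hτ⟩ : ∃ τ : Perm V, τ = Perm.ofSubtype (σ.subtypePerm (p := BB r o) a4) := ⟨_, rfl⟩
  have t1 : ∀ v, BB r o v → τ v = σ v := by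
    intro v hv
    rw [hτ, Perm.ofSubtype_apply_of_mem _ hv]
    rfl
  have t2 : ∀ v, ¬ BB r o v → τ v = v := by
    intro v hv
    rw [hτ, Perm.ofSubtype_apply_of_not_mem _ hv]
  have h4 : σ = τ * (r * τ * r⁻¹) := by
    ext v
    rw [Perm.mul_apply, Perm.mul_apply, Perm.mul_apply]
    have hinv : r⁻¹ v = r (r v) := by
      rw [Perm.inv_eq_iff_eq, h3]
    rw [hinv]
    by_cases hv : o v = true
    · rcases o3_cases h3 hp hv with ⟨h1, h2⟩ | ⟨h1, h2⟩
      · have h5 : ¬ BB r o (r (r v)) := fun h => by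
          rw [h.1] at h2
          exact absurd h2 (by simp)
        rw [t2 _ h5, h3, t1 v h1]
      · have h5 : ¬ BB r o v := fun h => by
          rw [h.2] at h2
          exact absurd h2 (by simp)
        rw [t1 _ h1]
        obtain ⟨h6, h7⟩ := a1 _ h1
        rw [h3] at h7
        rw [← h7, t2]
        intro h8
        exact h5 ((a4 v).1 h8)
    · rw [Bool.not_eq_true] at hv
      have h5 : ¬ BB r o v := fun h => by
        rw [h.1] at hv
        exact absurd hv (by simp)
      have h6 : ¬ BB r o (r (r v)) := fun h => by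
        have := h.2
        rw [h3, hv] at this
        exact absurd this (by simp)
      rw [t2 _ h6, h3, t2 v h5, a3 v hv]
  have h5 : Perm.sign σ = 1 := by
    rw [h4, Perm.sign_mul, Perm.sign_mul, Perm.sign_mul, Perm.sign_inv, mul_comm (Perm.sign r),
      mul_assoc (Perm.sign τ), Int.units_mul_self, mul_one, Int.units_mul_self]
  have h6 : Perm.sign κ * Perm.sign κ₀ = 1 := by
    rw [hσ, Perm.sign_mul, Perm.sign_inv] at h5
    exact h5
  have h7 : Perm.sign κ * Perm.sign κ₀ * Perm.sign κ₀ = Perm.sign κ₀ := by rw [h6, one_mul]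
  rwa [mul_assoc, Int.units_mul_self, mul_one] at h7

theorem sg_eq [Fintype V] (he : ∀ v, e (e v) = v) (h3 : ∀ v, r (r (r v)) = v)
    (hp : Par2 e r o p) {κ : Perm V} (k : IsK e r o p κ) :
    sg e r o p = ((Perm.sign κ : ℤˣ) : ℤ) := by
  unfold sg
  have h : ∃ κ, IsK e r o p κ := ⟨κ, k⟩
  rw [dif_pos h, sign_eq he h3 hp h.choose_spec k]

/-- Existence. -/
theorem exists_isK [Fintype V] (he : ∀ v, e (e v) = v) (h3 : ∀ v, r (r (r v)) = v)
    (hp : Par2 e r o p) : ∃ κ, IsK e r o p κ := by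
  -- the positive half-edges and the directed pairs have the same number
  let A : Finset V := Finset.univ.filter fun v => o v = true ∧ p v = true
  let B : Finset V := Finset.univ.filter fun v => BB r o v
  let O : Finset V := Finset.univ.filter fun v => o v = true
  have mA : ∀ v, v ∈ A ↔ o v = true ∧ p v = true := fun v => by
    simp only [A, Finset.mem_filter, Finset.mem_univ, true_and]
  have mB : ∀ v, v ∈ B ↔ BB r o v := fun v => by
    simp only [B, Finset.mem_filter, Finset.mem_univ, true_and]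
  have mO : ∀ v, v ∈ O ↔ o v = true := fun v => by
    simp only [O, Finset.mem_filter, Finset.mem_univ, true_and]
  have cA : O = A ∪ A.map e.toEmbedding := by
    ext v
    rw [Finset.mem_union, mO, mA, Finset.mem_map]
    constructor
    · intro hv
      cases h : p v with
      | true => exact Or.inl ⟨hv, rfl⟩
      | false =>
        refine Or.inr ⟨e v, (mA _).2 ⟨by rw [hp.oe, hv], by rw [hp.pe v hv, h]; rfl⟩, ?_⟩
        exact he v
    · rintro (h | ⟨u, hu, rfl⟩)
      · exact h.1
      · show o (e u) = true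
        rw [hp.oe]
        exact ((mA u).1 hu).1
  have dA : Disjoint A (A.map e.toEmbedding) := by
    rw [Finset.disjoint_left]
    intro v hv hv2
    obtain ⟨u, hu, rfl⟩ := Finset.mem_map.1 hv2
    have h1 := ((mA _).1 hv).2
    have h2 := (mA u).1 hu
    have h3 : p (e u) = true := h1
    rw [hp.pe u h2.1, h2.2] at h3
    exact absurd h3 (by simp)
  have cB : O = B ∪ B.map r.toEmbedding := by
    ext v
    rw [Finset.mem_union, mO, mB, Finset.mem_map]
    constructor
    · intro hv
      rcases o3_cases h3 hp hv with ⟨h1, _⟩ | ⟨h1, _⟩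
      · exact Or.inl h1
      · exact Or.inr ⟨_, (mB _).2 h1, h3 v⟩
    · rintro (h | ⟨u, hu, rfl⟩)
      · exact h.1
      · exact ((mB u).1 hu).2
  have dB : Disjoint B (B.map r.toEmbedding) := by
    rw [Finset.disjoint_left]
    intro v hv hv2
    obtain ⟨u, hu, rfl⟩ := Finset.mem_map.1 hv2
    have h1 := (mB _).1 hv
    have h2 := (mB u).1 hu
    have h4 := hp.o3 u
    have h5 : o (r (r u)) = true := h1.2
    rw [h2.1, h2.2, h5] at h4
    simp at h4
  have hcard : A.card = B.card := by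
    have h1 : O.card = A.card + A.card := by
      rw [cA, Finset.card_union_of_disjoint dA, Finset.card_map]
    have h2 : O.card = B.card + B.card := by
      rw [cB, Finset.card_union_of_disjoint dB, Finset.card_map]
    omega
  let β : A ≃ B := Finset.equivOfCardEq hcard
  -- the map
  let f : V → V := fun v => if h : v ∈ A then (β ⟨v, h⟩ : V) else
    if h : e v ∈ A then r (β ⟨e v, h⟩ : V) else v
  have fA : ∀ v (h : v ∈ A), f v = (β ⟨v, h⟩ : V) := fun v h => dif_pos h
  have nA : ∀ v, v ∈ A → e v ∉ A := by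
    intro v hv hv2
    refine Finset.disjoint_left.1 dA hv2 (Finset.mem_map.2 ⟨v, hv, rfl⟩)
  have fE : ∀ v (h : v ∈ A), f (e v) = r (β ⟨v, h⟩ : V) := by
    intro v h
    have h1 : e (e v) ∈ A := by rw [he]; exact h
    have h2 : f (e v) = r (β ⟨e (e v), h1⟩ : V) := by
      simp only [f]
      rw [dif_neg (nA v h), dif_pos h1]
    rw [h2]
    congr 3
    exact Subtype.ext (he v)
  have fN : ∀ v, v ∉ O → f v = v := by
    intro v hv
    rw [cA, Finset.mem_union] at hv
    push Not at hv
    simp only [f]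
    rw [dif_neg hv.1, dif_neg]
    intro h
    exact hv.2 (Finset.mem_map.2 ⟨e v, h, he v⟩)
  have hsurj : Function.Surjective f := by
    intro w
    by_cases hw : w ∈ O
    · have hw' := hw
      rw [cB, Finset.mem_union] at hw'
      rcases hw' with h | h
      · obtain ⟨⟨v, hv⟩, h1⟩ := β.surjective ⟨w, h⟩
        exact ⟨v, by rw [fA v hv, h1]⟩
      · obtain ⟨u, hu, rfl⟩ := Finset.mem_map.1 h
        obtain ⟨⟨v, hv⟩, h1⟩ := β.surjective ⟨u, hu⟩
        exact ⟨e v, by rw [fE v hv, h1]; rfl⟩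
    · exact ⟨w, fN w hw⟩
  have hbij : Function.Bijective f := Finite.surjective_iff_bijective.1 hsurj
  refine ⟨Equiv.ofBijective f hbij, ?_, ?_⟩
  · intro v hv
    refine fN v fun h => ?_
    rw [mO, hv] at h
    exact Bool.false_ne_true h
  · intro v h1 h2
    have hv : v ∈ A := (mA v).2 ⟨h1, h2⟩
    have h4 := (mB _).1 (β ⟨v, hv⟩).2
    show o (f v) = true ∧ o (r (f v)) = true ∧ f (e v) = r (f v)
    rw [fA v hv, fE v hv]
    exact ⟨h4.1, h4.2, rfl⟩

end

theorem s_sg : S_sg := fun _ _ _ _ _ _ _ he h3 hp k => sg_eq he h3 hp k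

theorem s_ex : S_ex := fun _ _ _ _ _ _ he h3 hp => exists_isK he h3 hp

end Pool.Agent.SWT58
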