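import Mathlib
import Pool.Agent.SWT58.Sg

/-!
# Representatives of the vertices, and renaming of the half-edges in a state sum
-/

set_option autoImplicit false

namespace Pool.Agent.SWT58

open Equiv Pool.Agent.SWT80 Pool.Agent.SWT45
open scoped Classical

theorem exists_rep {V : Type} [Fintype V] (r : Perm V) (h3 : ∀ v, r (r (r v)) = v) :
    ∃ Q, IsRep r Q := by
  -- the orbit of a half-edge
  have key : ∀ (i : ℤ) (v : V), (r ^ i) v = v ∨ (r ^ i) v = r v ∨ (r ^ i) v = r (r v) := by
    intro i v
    have hr : r ^ (3 : ℕ) = 1 := by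
      ext v
      rw [pow_succ, pow_succ, pow_one, Perm.mul_apply, Perm.mul_apply, h3]
      rfl
    have h1 : r ^ i = r ^ (i % 3) := by
      conv_lhs => rw [← Int.emod_add_mul_ediv i 3]
      rw [zpow_add, zpow_mul]
      have : r ^ (3 : ℤ) = 1 := by exact_mod_cast hr
      rw [this, one_zpow, mul_one]
    have h2 : i % 3 = 0 ∨ i % 3 = 1 ∨ i % 3 = 2 := by omega
    rw [h1]
    rcases h2 with h2 | h2 | h2
    · left
      rw [h2]
      rfl
    · right; left
      rw [h2, zpow_one]
    · right; right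
      rw [h2]
      rfl
  let st := Perm.SameCycle.setoid r
  let q : V → V := fun v => (Quotient.mk st v).out
  have hq : ∀ v, Perm.SameCycle r (q v) v := fun v =>
    Quotient.exact (Quotient.out_eq (Quotient.mk st v))
  have hqr : ∀ v, q (r v) = q v := by
    intro v
    have h1 : Quotient.mk st (r v) = Quotient.mk st v := by
      apply Quotient.sound
      show Perm.SameCycle r (r v) v
      exact (Perm.sameCycle_apply_left).2 (Perm.SameCycle.refl _ _)
    show (Quotient.mk st (r v)).out = (Quotient.mk st v).out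
    rw [h1]
  have hqq : ∀ v, q (q v) = q v := by
    intro v
    show (Quotient.mk st (q v)).out = (Quotient.mk st v).out
    rw [show Quotient.mk st (q v) = Quotient.mk st v from Quotient.out_eq _]
  refine ⟨Finset.univ.filter fun v => r v ≠ v ∧ q v = v, ?_, ?_, ?_⟩
  · intro v hv
    exact (Finset.mem_filter.1 hv).2.1
  · intro v hv
    have hv1 : r (r v) ≠ r v := fun h => hv (r.injective h)
    have hv2 : r (r (r v)) ≠ r (r v) := fun h => hv1 (r.injective h)
    -- `v` is `q v`, `r (q v)` or `r (r (q v))`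
    obtain ⟨i, hi⟩ := hq v
    rcases key i (q v) with h | h | h
    · left
      rw [Finset.mem_filter]
      exact ⟨Finset.mem_univ _, hv, h.symm.trans hi⟩
    · right; right
      rw [Finset.mem_filter]
      refine ⟨Finset.mem_univ _, hv2, ?_⟩
      rw [hqr, hqr]
      have h1 : v = r (q v) := hi.symm.trans h
      conv_rhs => rw [h1]
      rw [h3]
    · right; left
      rw [Finset.mem_filter]
      refine ⟨Finset.mem_univ _, hv1, ?_⟩
      rw [hqr]
      have h1 : v = r (r (q v)) := hi.symm.trans h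
      conv_rhs => rw [h1]
      rw [h3]
  · intro v hv
    rw [Finset.mem_filter] at hv
    obtain ⟨_, h1, h2⟩ := hv
    have hv1 : r (r v) ≠ v := by
      intro h
      have := h3 v
      rw [h] at this
      exact h1 this
    constructor
    · intro h
      have h4 := (Finset.mem_filter.1 h).2.2
      rw [hqr, h2] at h4
      exact h1 h4.symm
    · intro h
      have h4 := (Finset.mem_filter.1 h).2.2
      rw [hqr, hqr, h2] at h4
      exact hv1 h4.symm

theorem prod_rep {V : Type} {r : Perm V} {Q Q' : Finset V} {f : V → ℤ}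
    (h3 : ∀ v, r (r (r v)) = v) (hQ : IsRep r Q) (hQ' : IsRep r Q') (hf : ∀ v, f (r v) = f v) :
    ∏ v ∈ Q, f v = ∏ v ∈ Q', f v := by
  -- the representative in `Q'` of the vertex of `v`
  have key : ∀ v ∈ Q, ∃ w ∈ Q', w = v ∨ w = r v ∨ w = r (r v) := by
    intro v hv
    rcases hQ'.ex v (hQ.nf v hv) with h | h | h
    · exact ⟨_, h, Or.inl rfl⟩
    · exact ⟨_, h, Or.inr (Or.inl rfl)⟩
    · exact ⟨_, h, Or.inr (Or.inr rfl)⟩
  choose g hg using key
  have uniq : ∀ (P : Finset V), IsRep r P → ∀ v ∈ P, ∀ w ∈ P, (w = v ∨ w = r v ∨ w = r (r v)) →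
      w = v := by
    intro P hP v hv w hw h
    rcases h with h | h | h
    · exact h
    · exact absurd (h ▸ hw) (hP.un v hv).1
    · exact absurd (h ▸ hw) (hP.un v hv).2
  refine Finset.prod_bij g (fun v hv => (hg v hv).1) ?_ ?_ ?_
  · intro v hv w hw h
    have h1 := (hg v hv).2
    have h2 := (hg w hw).2
    rw [h] at h1
    apply uniq Q hQ w hw v hv
    -- both are at the vertex of `g w`
    rcases h1 with h1 | h1 | h1 <;> rcases h2 with h2 | h2 | h2 <;> rw [h1] at h2
    · exact Or.inl h2
    · exact Or.inr (Or.inl h2)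
    · exact Or.inr (Or.inr h2)
    · right; right
      rw [← h2, h3]
    · exact Or.inl (r.injective h2)
    · right; left
      exact r.injective h2
    · right; left
      rw [← h2, h3]
    · right; right
      have h4 := r.injective h2
      rw [← h4, h3]
    · exact Or.inl (r.injective (r.injective h2))
  · intro w hw
    rcases hQ.ex w (hQ'.nf w hw) with h | h | h
    · refine ⟨w, h, uniq Q' hQ' _ hw _ (hg w h).1 (hg w h).2⟩
    · refine ⟨r w, h, uniq Q' hQ' _ hw _ (hg _ h).1 ?_⟩
      rcases (hg _ h).2 with h1 | h1 | h1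
      · exact Or.inr (Or.inl h1)
      · exact Or.inr (Or.inr h1)
      · left
        rw [h1, h3]
    · refine ⟨r (r w), h, uniq Q' hQ' _ hw _ (hg _ h).1 ?_⟩
      rcases (hg _ h).2 with h1 | h1 | h1
      · exact Or.inr (Or.inr h1)
      · left
        rw [h1, h3]
      · right; left
        rw [h1, h3]
  · intro v hv
    rcases (hg v hv).2 with h | h | h
    · rw [h]
    · rw [h, hf]
    · rw [h, hf, hf]

theorem vp_eq {V : Type} [Fintype V] {r : Perm V} {Q : Finset V} {f : V → ℤ}
    (h3 : ∀ v, r (r (r v)) = v) (hQ : IsRep r Q) (hf : ∀ v, f (r v) = f v) :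
    vp r f = ∏ v ∈ Q, f v := by
  unfold vp
  have h : ∃ Q, IsRep r Q := ⟨Q, hQ⟩
  rw [dif_pos h]
  exact prod_rep h3 h.choose_spec hQ hf

theorem s_rep : S_rep := fun _ _ r h3 => exists_rep r h3

theorem s_vp : S_vp := fun _ _ _ _ _ h3 hQ hf => vp_eq h3 hQ hf

/-! ### Renaming -/

section

variable {V W : Type} {e r : Perm V} {o p : V → Bool}

/-- If `κ` exists then the fixed points of `r` are even. -/
theorem IsK.ol {κ : Perm V} (he : ∀ v, e (e v) = v)
    (oe : ∀ v, o (e v) = o v) (pe : ∀ v, o v = true → p (e v) = !(p v)) (k : IsK e r o p κ)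
    (v : V) (hv : r v = v) : o v = false := by
  by_contra h
  rw [Bool.not_eq_false] at h
  obtain ⟨w, hw⟩ := κ.surjective v
  have ow : o w = true := by
    by_contra h1
    rw [Bool.not_eq_true] at h1
    rw [k.fix w h1] at hw
    rw [hw, h] at h1
    exact absurd h1 (by simp)
  cases h1 : p w with
  | true =>
    have h2 := (k.map w ow h1).2.2
    rw [hw, hv, ← hw] at h2
    have h4 := κ.injective h2
    have h5 := pe w ow
    rw [h4, h1] at h5
    exact absurd h5 (by simp)
  | false =>
    have o2 : o (e w) = true := by rw [oe, ow]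
    have p2 : p (e w) = true := by rw [pe w ow, h1]; rfl
    have h2 := (k.map _ o2 p2).2.2
    rw [he, hw] at h2
    have h4 : κ (e w) = v := r.injective (h2.symm.trans hv.symm)
    have h5 := κ.injective (h4.trans hw.symm)
    rw [h5] at p2
    rw [h1] at p2
    exact absurd p2 (by simp)

theorem isK_map (f : V ≃ W) {κ : Perm V} {e' r' : Perm W} {o' p' : W → Bool}
    (he : ∀ v, e' (f v) = f (e v)) (hr : ∀ v, r' (f v) = f (r v)) (ho : ∀ v, o' (f v) = o v)
    (hp : ∀ v, p' (f v) = p v) (k : IsK e r o p κ) :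
    IsK e' r' o' p' ((f.symm.trans κ).trans f) := by
  constructor
  · intro w hw
    obtain ⟨v, rfl⟩ := f.surjective w
    rw [ho] at hw
    simp [k.fix v hw]
  · intro w h1 h2
    obtain ⟨v, rfl⟩ := f.surjective w
    rw [ho] at h1
    rw [hp] at h2
    obtain ⟨a, b, c⟩ := k.map v h1 h2
    have h3 : ((f.symm.trans κ).trans f) (f v) = f (κ v) := by simp
    have h4 : ((f.symm.trans κ).trans f) (e' (f v)) = f (κ (e v)) := by rw [he]; simp
    rw [h3, h4, hr, ho, ho, c]
    exact ⟨a, b, rfl⟩

theorem isRep_map (f : V ≃ W) {r' : Perm W} (hr : ∀ v, r' (f v) = f (r v)) {Q : Finset V}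
    (hQ : IsRep r Q) : IsRep r' (Q.map f.toEmbedding) := by
  have mem : ∀ v, f v ∈ Q.map f.toEmbedding ↔ v ∈ Q := fun v => by simp
  constructor
  · intro w hw
    obtain ⟨v, rfl⟩ := f.surjective w
    rw [mem] at hw
    rw [hr]
    exact fun h => hQ.nf v hw (f.injective h)
  · intro w hw
    obtain ⟨v, rfl⟩ := f.surjective w
    rw [hr, hr, mem, mem, mem]
    rw [hr] at hw
    exact hQ.ex v fun h => hw (congrArg f h)
  · intro w hw
    obtain ⟨v, rfl⟩ := f.surjective w
    rw [hr, hr, mem, mem]
    rw [mem] at hw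
    exact hQ.un v hw

theorem vp_map [Fintype V] [Fintype W] (f : V ≃ W) {r' : Perm W} (h3 : ∀ v, r (r (r v)) = v)
    (hr : ∀ v, r' (f v) = f (r v)) {φ : V → ℤ} {ψ : W → ℤ} (hφ : ∀ v, φ (r v) = φ v)
    (hψ : ∀ v, ψ (f v) = φ v) : vp r' ψ = vp r φ := by
  obtain ⟨Q, hQ⟩ := exists_rep r h3
  rw [vp_eq h3 hQ hφ, vp_eq (Q := Q.map f.toEmbedding) _ (isRep_map f hr hQ), Finset.prod_map]
  · exact Finset.prod_congr rfl fun v _ => hψ v
  · intro w
    obtain ⟨v, rfl⟩ := f.surjective w
    rw [hr, hψ, hψ, hφ]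
  · intro w
    obtain ⟨v, rfl⟩ := f.surjective w
    rw [hr, hr, hr, h3]

/-- The sign is invariant under renaming. -/
theorem sg_map [Fintype V] [Fintype W] (f : V ≃ W) {e' r' : Perm W} {o' p' : W → Bool}
    (he2 : ∀ v, e (e v) = v) (h3 : ∀ v, r (r (r v)) = v)
    (oe : ∀ v, o (e v) = o v) (pe : ∀ v, o v = true → p (e v) = !(p v))
    (o3 : ∀ v, r v ≠ v → (o v ^^ (o (r v) ^^ o (r (r v)))) = false)
    (he : ∀ v, e' (f v) = f (e v)) (hr : ∀ v, r' (f v) = f (r v)) (ho : ∀ v, o' (f v) = o v)
    (hp : ∀ v, p' (f v) = p v) : sg e' r' o' p' = sg e r o p := by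
  by_cases h : ∃ κ, IsK e r o p κ
  · obtain ⟨κ, k⟩ := h
    have hpar : Par2 e r o p := by
      refine ⟨oe, pe, IsK.ol he2 oe pe k, ?_⟩
      intro v
      by_cases hv : r v = v
      · rw [hv, hv, IsK.ol he2 oe pe k v hv]
        rfl
      · exact o3 v hv
    have hpar' : Par2 e' r' o' p' := by
      refine ⟨?_, ?_, ?_, ?_⟩
      · intro w
        obtain ⟨v, rfl⟩ := f.surjective w
        rw [he, ho, ho, oe]
      · intro w hw
        obtain ⟨v, rfl⟩ := f.surjective w
        rw [ho] at hw
        rw [he, hp, hp, pe v hw]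
      · intro w hw
        obtain ⟨v, rfl⟩ := f.surjective w
        rw [hr] at hw
        rw [ho]
        exact hpar.ol v (f.injective hw)
      · intro w
        obtain ⟨v, rfl⟩ := f.surjective w
        rw [hr, hr, ho, ho, ho]
        exact hpar.o3 v
    rw [sg_eq he2 h3 hpar k, sg_eq _ _ hpar' (isK_map f he hr ho hp k),
      Perm.sign_symm_trans_trans]
    · intro w
      obtain ⟨v, rfl⟩ := f.surjective w
      rw [he, he, he2]
    · intro w
      obtain ⟨v, rfl⟩ := f.surjective w
      rw [hr, hr, hr, h3]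
  · have h' : ¬ ∃ κ, IsK e' r' o' p' κ := by
      rintro ⟨κ, k⟩
      apply h
      refine ⟨_, isK_map (e' := e) (r' := r) (o' := o) (p' := p) f.symm ?_ ?_ ?_ ?_ k⟩
      · intro w
        obtain ⟨v, rfl⟩ := f.surjective w
        rw [he, f.symm_apply_apply, f.symm_apply_apply]
      · intro w
        obtain ⟨v, rfl⟩ := f.surjective w
        rw [hr, f.symm_apply_apply, f.symm_apply_apply]
      · intro w
        obtain ⟨v, rfl⟩ := f.surjective w
        rw [ho, f.symm_apply_apply]
      · intro w
        obtain ⟨v, rfl⟩ := f.surjective w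
        rw [hp, f.symm_apply_apply]
    unfold sg
    rw [dif_neg h, dif_neg h']

end

theorem s_map : S_map := by
  intro L _ S hS V W _ _ n f G A B hAB
  unfold Z
  symm
  refine Finset.sum_bij (fun s _ => s ∘ f.symm) ?_ ?_ ?_ ?_
  · intro s hs
    rw [Finset.mem_filter] at hs ⊢
    obtain ⟨_, h1, h2⟩ := hs
    refine ⟨Finset.mem_univ _, ?_, ?_⟩
    · intro w
      obtain ⟨v, rfl⟩ := f.surjective w
      rw [hAB]
      simpa using h1 v
    · intro w
      obtain ⟨v, rfl⟩ := f.surjective w
      rw [Gr.map_e]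
      simpa using h2 v
  · intro s _ t _ h
    funext v
    have := congrFun h (f v)
    simpa using this
  · intro t ht
    rw [Finset.mem_filter] at ht
    obtain ⟨_, h1, h2⟩ := ht
    refine ⟨t ∘ f, ?_, ?_⟩
    · rw [Finset.mem_filter]
      refine ⟨Finset.mem_univ _, ?_, ?_⟩
      · intro v
        exact (hAB v _).1 (h1 (f v))
      · intro v
        have := h2 (f v)
        rw [Gr.map_e] at this
        exact this
    · funext w
      simp
  · intro s hs
    rw [Finset.mem_filter] at hs
    obtain ⟨_, h1, h2⟩ := hs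
    unfold wt
    have hT : ∀ v, S.T (s (G.r v)) (s (G.r (G.r v))) (s (G.r (G.r (G.r v)))) =
        S.T (s v) (s (G.r v)) (s (G.r (G.r v))) := by
      intro v
      rw [G.r3, hS.cyc (s v)]
    have hvp : (vp (G.map f).r fun w => S.T ((s ∘ f.symm) w) ((s ∘ f.symm) ((G.map f).r w))
        ((s ∘ f.symm) ((G.map f).r ((G.map f).r w)))) =
        vp G.r fun v => S.T (s v) (s (G.r v)) (s (G.r (G.r v))) := by
      refine vp_map f G.r3 (Gr.map_r f G) hT ?_
      intro v
      simp only [Function.comp_apply, Gr.map_r, Equiv.symm_apply_apply]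
    rw [hvp]
    by_cases h0 : (vp G.r fun v => S.T (s v) (s (G.r v)) (s (G.r (G.r v)))) = 0
    · rw [h0, mul_zero, mul_zero]
    · congr 1
      symm
      refine sg_map f G.e2 G.r3 ?_ ?_ ?_ (Gr.map_e f G) (Gr.map_r f G) ?_ ?_
      · intro v
        rw [h2, hS.odd_du]
      · intro v hv
        rw [h2, hS.pos_du _ hv]
      · intro v hv
        apply hS.par
        obtain ⟨Q, hQ⟩ := exists_rep G.r G.r3
        rw [vp_eq G.r3 hQ hT] at h0
        have h0 := Finset.prod_ne_zero_iff.1 h0
        rcases hQ.ex v hv with h | h | h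
        · exact h0 v h
        · have := h0 _ h
          rwa [hT] at this
        · have := h0 _ h
          rwa [hT, hT] at this
      · intro v
        simp
      · intro v
        simp

end Pool.Agent.SWT58
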