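import Mathlib
import Pool.Agent.SWT58.Rep

/-!
# Reversal of a cyclic order in a state sum
-/

set_option autoImplicit false

namespace Pool.Agent.SWT58

open Equiv Pool.Agent.SWT80 Pool.Agent.SWT45
open scoped Classical

section

variable {V : Type} {n : ℕ} (G : Gr V n) {x : V}

theorem vt_of (G : Gr V n) {x v : V} (h : G.vt x v) : G.vt v x := by
  rcases h with rfl | rfl | rfl
  · exact Or.inl rfl
  · right; right
    rw [G.r3]
  · right; left
    rw [G.r3]

theorem vt_tr (G : Gr V n) {x v w : V} (h : G.vt x v) (h' : G.vt v w) : G.vt x w := by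
  rcases h' with rfl | rfl | rfl
  · exact h
  · exact G.vt_r.2 h
  · exact G.vt_r.2 (G.vt_r.2 h)

/-- The same representatives. -/
theorem isRep_flip {Q : Finset V} (hQ : IsRep G.r Q) : IsRep (G.flip x).r Q := by
  have key : ∀ v, ((G.flip x).r v = G.r v ∧ (G.flip x).r ((G.flip x).r v) = G.r (G.r v)) ∨
      ((G.flip x).r v = G.r (G.r v) ∧ (G.flip x).r ((G.flip x).r v) = G.r v) := by
    intro v
    by_cases h : G.vt x v
    · right
      have h1 : (G.flip x).r v = G.r (G.r v) := by rw [Gr.flip_r, Gr.fr_pos h]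
      refine ⟨h1, ?_⟩
      rw [h1, Gr.flip_r, Gr.fr_pos (G.vt_r.2 (G.vt_r.2 h)), G.r3]
    · left
      have h1 : (G.flip x).r v = G.r v := by rw [Gr.flip_r, Gr.fr_neg h]
      refine ⟨h1, ?_⟩
      rw [h1, Gr.flip_r, Gr.fr_neg fun h2 => h (G.vt_r.1 h2)]
  constructor
  · intro v hv h
    apply hQ.nf v hv
    rcases key v with ⟨h1, _⟩ | ⟨h1, _⟩
    · rw [← h1, h]
    · exact G.r2 (h1.symm.trans h)
  · intro v hv
    have hv' : G.r v ≠ v := by
      intro h
      apply hv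
      rcases key v with ⟨h1, _⟩ | ⟨h1, _⟩
      · rw [h1, h]
      · rw [h1, h, h]
    rcases key v with ⟨h1, h2⟩ | ⟨h1, h2⟩
    · rw [h2, h1]
      exact hQ.ex v hv'
    · rw [h2, h1]
      have := hQ.ex v hv'
      tauto
  · intro v hv
    have := hQ.un v hv
    rcases key v with ⟨h1, h2⟩ | ⟨h1, h2⟩
    · rw [h2, h1]
      exact this
    · rw [h2, h1]
      exact ⟨this.2, this.1⟩

theorem vp_flip [Fintype V] (hx : G.r x ≠ x) {f f' : V → ℤ} (hf : ∀ v, f (G.r v) = f v)
    (hf' : ∀ v, f' ((G.flip x).r v) = f' v) {ε : ℤ} (h1 : ∀ v, G.vt x v → f' v = ε * f v)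
    (h2 : ∀ v, ¬ G.vt x v → f' v = f v) : vp (G.flip x).r f' = ε * vp G.r f := by
  obtain ⟨Q, hQ⟩ := exists_rep G.r G.r3
  rw [vp_eq G.r3 hQ hf, vp_eq (G.flip x).r3 (isRep_flip G hQ) hf']
  obtain ⟨q, hq, hqx⟩ : ∃ q ∈ Q, G.vt x q := by
    rcases hQ.ex x hx with h | h | h
    · exact ⟨_, h, Or.inl rfl⟩
    · exact ⟨_, h, Or.inr (Or.inl rfl)⟩
    · exact ⟨_, h, Or.inr (Or.inr rfl)⟩
  rw [← Finset.mul_prod_erase Q f' hq, ← Finset.mul_prod_erase Q f hq, h1 q hqx, mul_assoc]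
  congr 2
  refine Finset.prod_congr rfl fun v hv => ?_
  obtain ⟨hv1, hv2⟩ := Finset.mem_erase.1 hv
  apply h2
  intro h
  rcases vt_tr G (vt_of G hqx) h with h3 | h3 | h3
  · exact hv1 h3
  · exact (hQ.un q hq).1 (h3 ▸ hv2)
  · exact (hQ.un q hq).2 (h3 ▸ hv2)

theorem isK_flip {o p : V → Bool} {κ : Perm V} {u : V} (hu : G.vt x u) (ou : o u = true)
    (ou1 : o (G.r u) = true) (ou2 : o (G.r (G.r u)) = false) (k : IsK G.e G.r o p κ) :
    IsK (G.flip x).e (G.flip x).r o p (swap u (G.r u) * κ) := by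
  constructor
  · intro v hv
    rw [Perm.mul_apply, k.fix v hv]
    apply swap_apply_of_ne_of_ne
    · rintro rfl
      rw [ou] at hv
      exact absurd hv (by simp)
    · rintro rfl
      rw [ou1] at hv
      exact absurd hv (by simp)
  · intro v hv pv
    obtain ⟨h1, h2, h3⟩ := k.map v hv pv
    rw [Gr.flip_e, Perm.mul_apply, Perm.mul_apply, h3]
    by_cases hb : κ v = u
    · rw [hb, swap_apply_left, swap_apply_right]
      have h4 : (G.flip x).r (G.r u) = u := by
        rw [Gr.flip_r, Gr.fr_pos (G.vt_r.2 hu), G.r3]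
      rw [h4]
      exact ⟨ou1, ou, rfl⟩
    have n1 : κ v ≠ G.r u := by
      intro h
      rw [h, ou2] at h2
      exact absurd h2 (by simp)
    have n2 : G.r (κ v) ≠ u := by
      intro h
      have h4 : κ v = G.r (G.r u) := by
        rw [← h, G.r3]
      rw [h4, ou2] at h1
      exact absurd h1 (by simp)
    have n3 : G.r (κ v) ≠ G.r u := fun h => hb (G.r_inj h)
    rw [swap_apply_of_ne_of_ne hb n1, swap_apply_of_ne_of_ne n2 n3]
    have nv : ¬ G.vt x (κ v) := by
      intro h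
      rcases vt_tr G (vt_of G hu) h with h4 | h4 | h4
      · exact hb h4
      · exact n1 h4
      · rw [h4, ou2] at h1
        exact absurd h1 (by simp)
    have h4 : (G.flip x).r (κ v) = G.r (κ v) := by rw [Gr.flip_r, Gr.fr_neg nv]
    rw [h4]
    exact ⟨h1, h2, rfl⟩

theorem isK_flip0 {o p : V → Bool} {κ : Perm V} (h0 : ∀ v, G.vt x v → o v = false)
    (k : IsK G.e G.r o p κ) : IsK (G.flip x).e (G.flip x).r o p κ := by
  constructor
  · exact k.fix
  · intro v hv pv
    obtain ⟨h1, h2, h3⟩ := k.map v hv pv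
    have nv : ¬ G.vt x (κ v) := by
      intro h
      rw [h0 _ h] at h1
      exact absurd h1 (by simp)
    rw [Gr.flip_e, Gr.flip_r, Gr.fr_neg nv]
    exact ⟨h1, h2, h3⟩

theorem par2_flip {o p : V → Bool} (hp : Par2 G.e G.r o p) :
    Par2 (G.flip x).e (G.flip x).r o p := by
  refine ⟨hp.oe, hp.pe, ?_, ?_⟩
  · intro v hv
    apply hp.ol
    by_cases h : G.vt x v
    · rw [Gr.flip_r, Gr.fr_pos h] at hv
      exact G.r2 hv
    · rwa [Gr.flip_r, Gr.fr_neg h] at hv
  · intro v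
    have h3 := hp.o3 v
    by_cases h : G.vt x v
    · rw [Gr.flip_r, Gr.flip_r, Gr.fr_pos h, Gr.fr_pos (G.vt_r.2 (G.vt_r.2 h)), G.r3]
      cases h4 : o v <;> cases h5 : o (G.r v) <;> cases h6 : o (G.r (G.r v)) <;> simp_all
    · rw [Gr.flip_r, Gr.flip_r, Gr.fr_neg h, Gr.fr_neg fun h2 => h (G.vt_r.1 h2)]
      exact h3

end

theorem s_flip : S_flip := by
  intro L _ S hS V _ n G x A hx hA hl hT
  unfold Z
  rw [← Finset.sum_neg_distrib]
  have hset : (Finset.univ : Finset (V → L)).filter (fun s => IsSt S (G.flip x) A s) =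
      Finset.univ.filter (fun s => IsSt S G A s) := rfl
  rw [hset]
  refine Finset.sum_congr rfl fun s hs => ?_
  rw [Finset.mem_filter] at hs
  obtain ⟨_, h1, h2⟩ := hs
  have hf : ∀ v, S.T (s (G.r v)) (s (G.r (G.r v))) (s (G.r (G.r (G.r v)))) =
      S.T (s v) (s (G.r v)) (s (G.r (G.r v))) := by
    intro v
    rw [G.r3, hS.cyc (s v)]
  have hf' : ∀ v, S.T (s ((G.flip x).r v)) (s ((G.flip x).r ((G.flip x).r v)))
      (s ((G.flip x).r ((G.flip x).r ((G.flip x).r v)))) =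
      S.T (s v) (s ((G.flip x).r v)) (s ((G.flip x).r ((G.flip x).r v))) := by
    intro v
    rw [(G.flip x).r3, hS.cyc (s v)]
  -- the sign at the vertex
  obtain ⟨ε, hε⟩ : ∃ ε : ℤ, ε = if S.odd (s x) || (S.odd (s (G.r x)) || S.odd (s (G.r (G.r x))))
      then 1 else -1 := ⟨_, rfl⟩
  have hT' : S.T (s x) (s (G.r (G.r x))) (s (G.r x)) =
      ε * S.T (s x) (s (G.r x)) (s (G.r (G.r x))) := by
    rw [hT _ _ _ (h1 _) (h1 _) (h1 _), hε]
    split_ifs
    · rw [one_mul]
    · rw [neg_one_mul]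
  have hvp : (vp (G.flip x).r fun v => S.T (s v) (s ((G.flip x).r v))
      (s ((G.flip x).r ((G.flip x).r v)))) =
      ε * vp G.r fun v => S.T (s v) (s (G.r v)) (s (G.r (G.r v))) := by
    refine vp_flip G hx hf hf' ?_ ?_
    · intro v hv
      have e1 : (G.flip x).r v = G.r (G.r v) := by rw [Gr.flip_r, Gr.fr_pos hv]
      have e2 : (G.flip x).r (G.r (G.r v)) = G.r v := by
        rw [Gr.flip_r, Gr.fr_pos (G.vt_r.2 (G.vt_r.2 hv)), G.r3]
      rw [e1, e2]
      rcases hv with rfl | rfl | rfl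
      · exact hT'
      · rw [G.r3, hS.cyc (s (G.r x)) (s x), hT', hS.cyc (s x)]
      · rw [G.r3 (G.r x), G.r3 x, hS.cyc (s (G.r (G.r x))) (s (G.r x)) (s x),
          hS.cyc (s (G.r x)) (s x) (s (G.r (G.r x))), hT',
          hS.cyc (s x) (s (G.r x)) (s (G.r (G.r x))), hS.cyc (s (G.r x)) (s (G.r (G.r x))) (s x)]
    · intro v hv
      rw [Gr.flip_r, Gr.flip_r, Gr.fr_neg hv, Gr.fr_neg fun h => hv (G.vt_r.1 h)]
  unfold wt
  rw [hvp]
  by_cases h0 : (vp G.r fun v => S.T (s v) (s (G.r v)) (s (G.r (G.r v)))) = 0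
  · rw [h0]
    ring
  -- the parities
  have hne : ∀ v, G.r v ≠ v → S.T (s v) (s (G.r v)) (s (G.r (G.r v))) ≠ 0 := by
    intro v hv
    obtain ⟨Q, hQ⟩ := exists_rep G.r G.r3
    rw [vp_eq G.r3 hQ hf] at h0
    have h0 := Finset.prod_ne_zero_iff.1 h0
    rcases hQ.ex v hv with h | h | h
    · exact h0 v h
    · have := h0 _ h
      rwa [hf] at this
    · have := h0 _ h
      rwa [hf, hf] at this
  have hp : Par2 G.e G.r (fun v => S.odd (s v)) (fun v => S.pos (s v)) := by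
    refine ⟨?_, ?_, ?_, ?_⟩
    · intro v
      show S.odd (s (G.e v)) = S.odd (s v)
      rw [h2, hS.odd_du]
    · intro v hv
      show S.pos (s (G.e v)) = !(S.pos (s v))
      rw [h2, hS.pos_du _ hv]
    · intro v hv
      exact hl v _ hv (h1 v)
    · intro v
      by_cases hv : G.r v = v
      · have h4 := hl v _ hv (h1 v)
        simp only [hv, h4]
        rfl
      · exact hS.par _ _ _ (hne v hv)
  obtain ⟨κ, k⟩ := exists_isK G.e2 G.r3 hp
  have hp' := par2_flip G (x := x) hp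
  rw [sg_eq G.e2 G.r3 hp k]
  have hpx := hp.o3 x
  -- two odd half-edges
  have two : ∀ u, G.vt x u → S.odd (s u) = true → S.odd (s (G.r u)) = true →
      S.odd (s (G.r (G.r u))) = false →
      sg (G.flip x).e (G.flip x).r (fun v => S.odd (s v)) (fun v => S.pos (s v)) =
        - ((Perm.sign κ : ℤˣ) : ℤ) := by
    intro u hu o1 o2 o3
    have hne2 : u ≠ G.r u := by
      intro h
      rw [← h, ← h, o1] at o3
      exact absurd o3 (by simp)
    rw [sg_eq (G.flip x).e2 (G.flip x).r3 hp' (isK_flip G hu o1 o2 o3 k), Perm.sign_mul,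
      Perm.sign_swap hne2, neg_one_mul, Units.val_neg]
  have none : S.odd (s x) = false → S.odd (s (G.r x)) = false → S.odd (s (G.r (G.r x))) = false →
      sg (G.flip x).e (G.flip x).r (fun v => S.odd (s v)) (fun v => S.pos (s v)) =
        ((Perm.sign κ : ℤˣ) : ℤ) := by
    intro o1 o2 o3
    refine sg_eq (G.flip x).e2 (G.flip x).r3 hp' (isK_flip0 G ?_ k)
    rintro v (rfl | rfl | rfl)
    · exact o1
    · exact o2
    · exact o3
  cases c1 : S.odd (s x) <;> cases c2 : S.odd (s (G.r x)) <;>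
    cases c3 : S.odd (s (G.r (G.r x))) <;> simp only [c1, c2, c3] at hpx hε
  · rw [none c1 c2 c3, hε]
    simp
  · exact absurd hpx (by simp)
  · exact absurd hpx (by simp)
  · rw [two (G.r x) (Or.inr (Or.inl rfl)) c2 c3 (by rw [G.r3]; exact c1), hε]
    simp
  · exact absurd hpx (by simp)
  · rw [two (G.r (G.r x)) (Or.inr (Or.inr rfl)) c3 (by rw [G.r3]; exact c1)
      (by rw [G.r3]; exact c2), hε]
    simp
  · rw [two x (Or.inl rfl) c1 c2 c3, hε]
    simp
  · exact absurd hpx (by simp)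

end Pool.Agent.SWT58
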