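import Mathlib
import Pool.Agent.SWT80.Mg

/-!
# The sliding lemma (Kirchhoff's law) for the end of a leg
-/

set_option autoImplicit false

namespace Pool.Agent.SWT58

open Pool.Agent.SWT49 Pool.Agent.SWT80 Pool.Agent.SWT80.Gr

variable {V M : Type} {n : ℕ} [AddCommGroup M]

section

open Classical

/-- The exchange of the two new half-edges. -/
noncomputable def xy (V : Type) : V ⊕ Bool ≃ V ⊕ Bool := Equiv.swap (Sum.inr false) (Sum.inr true)

theorem xy_x : xy V (Sum.inr false) = Sum.inr true := Equiv.swap_apply_left _ _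

theorem xy_y : xy V (Sum.inr true) = Sum.inr false := Equiv.swap_apply_right _ _

theorem xy_l (v : V) : xy V (Sum.inl v) = Sum.inl v :=
  Equiv.swap_apply_of_ne_of_ne Sum.inl_ne_inr Sum.inl_ne_inr

end

section

variable (G : Gr V (n + 1)) (i : Fin (n + 1)) (h : V)

theorem ins_vt_x : (G.ins i h).vt (Sum.inr false) (Sum.inr false) := Or.inl rfl

theorem ins_vt_y : (G.ins i h).vt (Sum.inr false) (Sum.inr true) := Or.inr (Or.inl rfl)

theorem ins_vt_p : (G.ins i h).vt (Sum.inr false) (Sum.inl (G.leg i)) := Or.inr (Or.inr rfl)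

theorem ins_vt_o {v : V} (hv : v ≠ G.leg i) : ¬ (G.ins i h).vt (Sum.inr false) (Sum.inl v) := by
  rintro (h1 | h1 | h1)
  · cases h1
  · rw [ins_r, insR_x] at h1
    cases h1
  · rw [ins_r, ins_r, insR_x, insR_y] at h1
    exact hv (Sum.inl.inj h1)

/-- The cyclic orders after the reversal of the new vertex. -/
theorem fl_x : ((G.ins i h).flip (Sum.inr false)).r (Sum.inr false) = Sum.inl (G.leg i) := by
  rw [flip_r, fr_pos (ins_vt_x G i h), ins_r, ins_r, insR_x, insR_y]

theorem fl_y : ((G.ins i h).flip (Sum.inr false)).r (Sum.inr true) = Sum.inr false := by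
  rw [flip_r, fr_pos (ins_vt_y G i h), ins_r, ins_r, insR_y, insR_p]

theorem fl_p : ((G.ins i h).flip (Sum.inr false)).r (Sum.inl (G.leg i)) = Sum.inr true := by
  rw [flip_r, fr_pos (ins_vt_p G i h), ins_r, ins_r, insR_p, insR_x]

theorem fl_o {v : V} (hv : v ≠ G.leg i) :
    ((G.ins i h).flip (Sum.inr false)).r (Sum.inl v) = Sum.inl (G.r v) := by
  rw [flip_r, fr_neg (ins_vt_o G i h hv), ins_r, insR_o G hv]

/-- The other side of the edge. -/
theorem map_xy : (G.ins i h).map (xy V) = (G.ins i (G.e h)).flip (Sum.inr false) := by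
  refine map_eq ?_ ?_ ?_
  · rintro (v | t)
    · rw [xy_l, flip_e, ins_e, ins_e]
      by_cases h1 : v = h
      · rw [h1, insE_h, xy_x]
        have h2 := insE_eh G (h := G.e h)
        rwa [G.e2] at h2
      by_cases h2 : v = G.e h
      · rw [h2, insE_h, insE_eh, xy_y]
      rw [insE_o G h1 h2, insE_o G h2 (by rw [G.e2]; exact h1), xy_l]
    · cases t
      · rw [xy_x, flip_e, ins_e, ins_e, insE_y, insE_x, G.e2, xy_l]
      · rw [xy_y, flip_e, ins_e, ins_e, insE_y, insE_x, xy_l]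
  · rintro (v | t)
    · rw [xy_l]
      by_cases h1 : v = G.leg i
      · rw [h1, fl_p, ins_r, insR_p, xy_x]
      · rw [fl_o G i _ h1, ins_r, insR_o G h1, xy_l]
    · cases t
      · rw [xy_x, fl_y, ins_r, insR_x, xy_y]
      · rw [xy_y, fl_x, ins_r, insR_y, xy_l]
  · intro k
    rw [flip_leg, ins_leg, ins_leg, xy_l]

/-- The end of a leg at its own edge. -/
theorem exists_self : ∃ φ : V ⊕ Bool ≃ V ⊕ Bool, (G.ins i (G.leg i)).map φ =
    (G.ins i (G.leg i)).flip (Sum.inr false) := by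
  classical
  have gx : Equiv.swap (Sum.inl (G.leg i)) (Sum.inr false) (Sum.inr false) =
      (Sum.inl (G.leg i) : V ⊕ Bool) := Equiv.swap_apply_right _ _
  have gp : Equiv.swap (Sum.inl (G.leg i)) (Sum.inr false) (Sum.inl (G.leg i)) =
      (Sum.inr false : V ⊕ Bool) := Equiv.swap_apply_left _ _
  have gy : Equiv.swap (Sum.inl (G.leg i)) (Sum.inr false) (Sum.inr true) =
      (Sum.inr true : V ⊕ Bool) :=
    Equiv.swap_apply_of_ne_of_ne Sum.inr_ne_inl (by simp)
  have gl : ∀ v, v ≠ G.leg i → Equiv.swap (Sum.inl (G.leg i)) (Sum.inr false) (Sum.inl v) =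
      (Sum.inl v : V ⊕ Bool) := fun v hv =>
    Equiv.swap_apply_of_ne_of_ne (fun h1 => hv (Sum.inl.inj h1)) Sum.inl_ne_inr
  refine ⟨Equiv.swap (Sum.inl (G.leg i)) (Sum.inr false), ?_⟩
  have hne : G.e (G.leg i) ≠ G.leg i := G.e1 _
  refine map_eq ?_ ?_ ?_
  · rintro (v | t)
    · by_cases h1 : v = G.leg i
      · rw [h1, gp, flip_e, ins_e, ins_e, insE_x, insE_h, gx]
      by_cases h2 : v = G.e (G.leg i)
      · rw [h2, gl _ hne, flip_e, ins_e, insE_eh, gy]
      rw [gl _ h1, flip_e, ins_e, insE_o G h1 h2, gl]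
      intro h3
      apply h2
      rw [← h3, G.e2]
    · cases t
      · rw [gx, flip_e, ins_e, ins_e, insE_x, insE_h, gp]
      · rw [gy, flip_e, ins_e, insE_y, gl _ hne]
  · rintro (v | t)
    · by_cases h1 : v = G.leg i
      · rw [h1, gp, fl_x, ins_r, insR_p, gx]
      · rw [gl _ h1, fl_o G i _ h1, ins_r, insR_o G h1, gl]
        exact r_ne G (G.r_leg i) h1
    · cases t
      · rw [gx, fl_p, ins_r, insR_x, gy]
      · rw [gy, fl_y, ins_r, insR_y, gp]
  · intro k
    rw [flip_leg, ins_leg, gl]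
    exact G.leg_ne (Fin.succAbove_ne i k)

end

section

variable (G : Gr V (n + 1)) (i : Fin (n + 1)) {h : V}

/-- IHX for the three positions around a vertex. -/
theorem exists_loc (hh : G.r h ≠ h) : ∃ (J X : Gr (V ⊕ Bool) n) (ψ ψ' : V ⊕ Bool ≃ V ⊕ Bool),
    Loc (G.ins i h) J X (Sum.inr false) ∧
    J = ((G.ins i (G.r h)).flip (Sum.inr false)).map ψ ∧
    X = (G.ins i (G.r (G.r h))).map ψ' := by
  classical
  have hc : G.r (G.r h) ≠ G.r h := fun h1 => hh (G.r_inj h1)
  have hd : G.r (G.r h) ≠ h := fun h1 => hh (G.r2 h1)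
  have h3 : G.r (G.r (G.r h)) = h := G.r3 h
  -- `p` is different from the three half-edges
  have hp : h ≠ G.leg i := fun h1 => hh (by rw [h1, G.r_leg])
  have cp : G.r h ≠ G.leg i := fun h1 => hc (by rw [h1, G.r_leg])
  have dp : G.r (G.r h) ≠ G.leg i := fun h1 => by
    have h2 : G.r (G.r (G.r h)) = G.r (G.r h) := by rw [h1, G.r_leg]
    exact hc (G.r_inj h2)
  -- the first renaming
  obtain ⟨ψ, hψ⟩ : ∃ ψ : V ⊕ Bool ≃ V ⊕ Bool, ψ = Equiv.swap (Sum.inl h) (Sum.inr true) *
      Equiv.swap (Sum.inr true) (Sum.inl (G.r h)) := ⟨_, rfl⟩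
  have ih : (Sum.inl h : V ⊕ Bool) ≠ Sum.inl (G.r h) := fun h1 => hh (Sum.inl.inj h1).symm
  have a1 : ψ (Sum.inl h) = Sum.inr true := by
    rw [hψ, Equiv.Perm.mul_apply, Equiv.swap_apply_of_ne_of_ne Sum.inl_ne_inr ih,
      Equiv.swap_apply_left]
  have a2 : ψ (Sum.inr true) = Sum.inl (G.r h) := by
    rw [hψ, Equiv.Perm.mul_apply, Equiv.swap_apply_left,
      Equiv.swap_apply_of_ne_of_ne ih.symm Sum.inl_ne_inr]
  have a3 : ψ (Sum.inl (G.r h)) = Sum.inl h := by
    rw [hψ, Equiv.Perm.mul_apply, Equiv.swap_apply_right, Equiv.swap_apply_right]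
  have a4 : ψ (Sum.inr false) = Sum.inr false := by
    rw [hψ, Equiv.Perm.mul_apply, Equiv.swap_apply_of_ne_of_ne (by simp) Sum.inr_ne_inl,
      Equiv.swap_apply_of_ne_of_ne Sum.inr_ne_inl (by simp)]
  have a5 : ∀ v, v ≠ h → v ≠ G.r h → ψ (Sum.inl v) = Sum.inl v := by
    intro v v1 v2
    rw [hψ, Equiv.Perm.mul_apply, Equiv.swap_apply_of_ne_of_ne Sum.inl_ne_inr
      (fun h1 => v2 (Sum.inl.inj h1)), Equiv.swap_apply_of_ne_of_ne
      (fun h1 => v1 (Sum.inl.inj h1)) Sum.inl_ne_inr]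
  -- the second renaming
  obtain ⟨ψ', hψ'⟩ : ∃ ψ' : V ⊕ Bool ≃ V ⊕ Bool, ψ' = Equiv.swap (Sum.inl h) (Sum.inr true) *
      Equiv.swap (Sum.inr true) (Sum.inl (G.r (G.r h))) *
      Equiv.swap (Sum.inl (G.r (G.r h))) (Sum.inr false) := ⟨_, rfl⟩
  have ik : (Sum.inl h : V ⊕ Bool) ≠ Sum.inl (G.r (G.r h)) := fun h1 => hd (Sum.inl.inj h1).symm
  have b1 : ψ' (Sum.inl h) = Sum.inr true := by
    rw [hψ', Equiv.Perm.mul_apply, Equiv.Perm.mul_apply,
      Equiv.swap_apply_of_ne_of_ne ik Sum.inl_ne_inr,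
      Equiv.swap_apply_of_ne_of_ne Sum.inl_ne_inr ik, Equiv.swap_apply_left]
  have b2 : ψ' (Sum.inr true) = Sum.inl (G.r (G.r h)) := by
    rw [hψ', Equiv.Perm.mul_apply, Equiv.Perm.mul_apply,
      Equiv.swap_apply_of_ne_of_ne Sum.inr_ne_inl (by simp), Equiv.swap_apply_left,
      Equiv.swap_apply_of_ne_of_ne ik.symm Sum.inl_ne_inr]
  have b3 : ψ' (Sum.inl (G.r (G.r h))) = Sum.inr false := by
    rw [hψ', Equiv.Perm.mul_apply, Equiv.Perm.mul_apply, Equiv.swap_apply_left,
      Equiv.swap_apply_of_ne_of_ne (by simp) Sum.inr_ne_inl,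
      Equiv.swap_apply_of_ne_of_ne Sum.inr_ne_inl (by simp)]
  have b4 : ψ' (Sum.inr false) = Sum.inl h := by
    rw [hψ', Equiv.Perm.mul_apply, Equiv.Perm.mul_apply, Equiv.swap_apply_right,
      Equiv.swap_apply_right, Equiv.swap_apply_right]
  have b5 : ∀ v, v ≠ h → v ≠ G.r (G.r h) → ψ' (Sum.inl v) = Sum.inl v := by
    intro v v1 v2
    rw [hψ', Equiv.Perm.mul_apply, Equiv.Perm.mul_apply, Equiv.swap_apply_of_ne_of_ne
      (fun h1 => v2 (Sum.inl.inj h1)) Sum.inl_ne_inr, Equiv.swap_apply_of_ne_of_ne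
      Sum.inl_ne_inr (fun h1 => v2 (Sum.inl.inj h1)), Equiv.swap_apply_of_ne_of_ne
      (fun h1 => v1 (Sum.inl.inj h1)) Sum.inl_ne_inr]
  refine ⟨_, _, ψ, ψ', ?_, rfl, rfl⟩
  -- the edges
  have eJ : (((G.ins i (G.r h)).flip (Sum.inr false)).map ψ).e = (G.ins i h).e := by
    refine Equiv.ext fun w => ?_
    obtain ⟨w, rfl⟩ := ψ.surjective w
    rw [map_e, flip_e, ins_e, ins_e]
    rcases w with v | t
    · by_cases v1 : v = G.r h
      · rw [v1, insE_h, a3, a4, insE_h]
      by_cases v2 : v = h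
      · rw [v2, a1, insE_y]
        by_cases v3 : h = G.e (G.r h)
        · have v4 := insE_eh G (h := G.r h)
          rw [← v3] at v4
          have v5 : G.e h = G.r h := by
            conv_lhs => rw [v3]
            rw [G.e2]
          rw [v4, a2, v5]
        · rw [insE_o G hh.symm v3, a5 _ (G.e1 h)]
          intro h5
          apply v3
          rw [← h5, G.e2]
      rw [a5 v v2 v1]
      by_cases v3 : v = G.e (G.r h)
      · rw [v3, insE_eh, a2, insE_o G (by rw [← v3]; exact v2), G.e2]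
        intro h5
        exact hh (G.e_inj h5)
      rw [insE_o G v1 v3]
      by_cases v4 : v = G.e h
      · rw [v4, G.e2, a1, insE_eh]
      rw [insE_o G v2 v4, a5]
      · intro h5
        apply v4
        rw [← h5, G.e2]
      · intro h5
        apply v3
        rw [← h5, G.e2]
    · cases t
      · rw [a4, insE_x, insE_x, a3]
      · rw [a2, insE_y]
        by_cases v3 : G.r h = G.e h
        · rw [v3, G.e2, a1, insE_eh]
        · rw [insE_o G hh v3, a5 _ _ (G.e1 _)]
          intro h5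
          apply v3
          rw [← G.e2 (G.r h), h5]
  have eX : ((G.ins i (G.r (G.r h))).map ψ').e = (G.ins i h).e := by
    refine Equiv.ext fun w => ?_
    obtain ⟨w, rfl⟩ := ψ'.surjective w
    rw [map_e, ins_e, ins_e]
    rcases w with v | t
    · by_cases v1 : v = G.r (G.r h)
      · rw [v1, insE_h, b3, b4, insE_x]
      by_cases v2 : v = h
      · rw [v2, b1, insE_y]
        by_cases v3 : h = G.e (G.r (G.r h))
        · have v4 := insE_eh G (h := G.r (G.r h))
          rw [← v3] at v4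
          have v5 : G.e h = G.r (G.r h) := by
            conv_lhs => rw [v3]
            rw [G.e2]
          rw [v4, b2, v5]
        · rw [insE_o G hd.symm v3, b5 _ (G.e1 h)]
          intro h5
          apply v3
          rw [← h5, G.e2]
      rw [b5 v v2 v1]
      by_cases v3 : v = G.e (G.r (G.r h))
      · rw [v3, insE_eh, b2, insE_o G (by rw [← v3]; exact v2), G.e2]
        intro h5
        exact hd (G.e_inj h5)
      rw [insE_o G v1 v3]
      by_cases v4 : v = G.e h
      · rw [v4, G.e2, b1, insE_eh]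
      rw [insE_o G v2 v4, b5]
      · intro h5
        apply v4
        rw [← h5, G.e2]
      · intro h5
        apply v3
        rw [← h5, G.e2]
    · cases t
      · rw [b4, insE_x, insE_h, b3]
      · rw [b2, insE_y]
        by_cases v3 : G.r (G.r h) = G.e h
        · rw [v3, G.e2, b1, insE_eh]
        · rw [insE_o G hd v3, b5 _ _ (G.e1 _)]
          intro h5
          apply v3
          rw [← G.e2 (G.r (G.r h)), h5]
  have Ix : (G.ins i h).r (Sum.inr false) = Sum.inr true := rfl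
  have Iy : (G.ins i h).r (Sum.inr true) = Sum.inl (G.leg i) := rfl
  have Ie : (G.ins i h).e (Sum.inr false) = Sum.inl h := rfl
  have Ih : (G.ins i h).r (Sum.inl h) = Sum.inl (G.r h) := by rw [ins_r, insR_o G hp]
  have Ic : (G.ins i h).r (Sum.inl (G.r h)) = Sum.inl (G.r (G.r h)) := by rw [ins_r, insR_o G cp]
  refine ⟨⟨?_, ?_, ?_, ?_⟩, ?_, ?_, ?_, ?_, ?_, ?_, ?_, ?_, ?_, ?_, ?_, ?_, ?_, eJ, eX, ?_, ?_⟩
  · rw [Ix]
    simp
  · rw [Ie, Ih]
    exact fun h1 => hh (Sum.inl.inj h1)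
  · rw [Ie, Ix]
    exact Sum.inl_ne_inr
  · rw [Ie, Ix, Iy]
    exact fun h1 => hp (Sum.inl.inj h1)
  · have h5 := map_r ψ ((G.ins i (G.r h)).flip (Sum.inr false)) (Sum.inr false)
    rw [a4, fl_x, a5 _ hp.symm cp.symm] at h5
    rw [Ix, Iy, h5]
  · have h5 := map_r ψ ((G.ins i (G.r h)).flip (Sum.inr false)) (Sum.inl (G.leg i))
    rw [a5 _ hp.symm cp.symm, fl_p, a2] at h5
    rw [Ix, Iy, Ie, Ih, h5]
  · have h5 := map_r ψ ((G.ins i (G.r h)).flip (Sum.inr false)) (Sum.inr true)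
    rw [a2, fl_y, a4] at h5
    rw [Ie, Ih, h5]
  · have h5 := map_r ψ ((G.ins i (G.r h)).flip (Sum.inr false)) (Sum.inl (G.r h))
    rw [a3, fl_o G i _ cp, a5 _ hd hc] at h5
    rw [Ie, Ih, Ic, h5]
  · have h5 := map_r ψ ((G.ins i (G.r h)).flip (Sum.inr false)) (Sum.inl (G.r (G.r h)))
    rw [a5 _ hd hc, fl_o G i _ dp, h3, a1] at h5
    rw [Ie, Ih, Ic, Ix, h5]
  · have h5 := map_r ψ ((G.ins i (G.r h)).flip (Sum.inr false)) (Sum.inl h)
    rw [a1, fl_o G i _ hp, a3] at h5
    rw [Ix, Ie, h5]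
  · have h5 := map_r ψ' (G.ins i (G.r (G.r h))) (Sum.inl (G.r (G.r h)))
    rw [b3, ins_r, insR_o G dp, h3, b1] at h5
    rw [Ix, h5]
  · have h5 := map_r ψ' (G.ins i (G.r (G.r h))) (Sum.inl h)
    rw [b1, ins_r, insR_o G hp, b5 _ hh hc.symm] at h5
    rw [Ix, Ie, Ih, h5]
  · have h5 := map_r ψ' (G.ins i (G.r (G.r h))) (Sum.inl (G.r h))
    rw [b5 _ hh hc.symm, ins_r, insR_o G cp, b3] at h5
    rw [Ie, Ih, h5]
  · have h5 := map_r ψ' (G.ins i (G.r (G.r h))) (Sum.inr false)
    rw [b4, ins_r, insR_x, b2] at h5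
    rw [Ie, Ih, Ic, h5]
  · have h5 := map_r ψ' (G.ins i (G.r (G.r h))) (Sum.inr true)
    rw [b2, ins_r, insR_y, b5 _ hp.symm dp.symm] at h5
    rw [Ie, Ih, Ic, Ix, Iy, h5]
  · have h5 := map_r ψ' (G.ins i (G.r (G.r h))) (Sum.inl (G.leg i))
    rw [b5 _ hp.symm dp.symm, ins_r, insR_p, b4] at h5
    rw [Ix, Iy, Ie, h5]
  · intro w w1 w2
    rcases w with v | t
    · have v1 : v ≠ G.leg i := by
        rintro rfl
        exact w1 (ins_vt_p G i h)
      have v2 : v ≠ h := by
        rintro rfl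
        exact w2 (Or.inl Ie.symm)
      have v3 : v ≠ G.r h := by
        rintro rfl
        exact w2 (Or.inr (Or.inl (by rw [Ie, Ih])))
      have v4 : v ≠ G.r (G.r h) := by
        rintro rfl
        exact w2 (Or.inr (Or.inr (by rw [Ie, Ih, Ic])))
      have s1 : G.r v ≠ h := fun h5 => v4 (G.r_inj (h5.trans h3.symm))
      have s2 : G.r v ≠ G.r h := fun h5 => v2 (G.r_inj h5)
      have s3 : G.r v ≠ G.r (G.r h) := fun h5 => v3 (G.r_inj h5)
      have h5 := map_r ψ ((G.ins i (G.r h)).flip (Sum.inr false)) (Sum.inl v)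
      have h6 := map_r ψ' (G.ins i (G.r (G.r h))) (Sum.inl v)
      rw [a5 _ v2 v3, fl_o G i _ v1, a5 _ s1 s2] at h5
      rw [b5 _ v2 v4, ins_r, insR_o G v1, b5 _ s1 s3] at h6
      rw [h5, h6, ins_r, insR_o G v1]
      exact ⟨rfl, rfl⟩
    · cases t
      · exact absurd (ins_vt_x G i h) w1
      · exact absurd (ins_vt_y G i h) w1
  · funext k
    rw [map_leg, flip_leg, ins_leg, ins_leg, a5]
    · intro h5
      apply hh
      rw [← h5, G.r_leg]
    · intro h5
      apply hc
      rw [← h5, G.r_leg]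
  · funext k
    rw [map_leg, ins_leg, ins_leg, b5]
    · intro h5
      apply hh
      rw [← h5, G.r_leg]
    · intro h5
      have h6 := G.r_leg (i.succAbove k)
      rw [h5, h3] at h6
      exact hd h6.symm

end

/-! ### The values of a functional -/

/-- A sum over a set of orbits of length three. -/
theorem sum_triples [DecidableEq V] (r : V → V) (f : V → M) (h3 : ∀ h, r (r (r h)) = h) (m : ℕ) :
    ∀ T : Finset V, T.card = m → (∀ h ∈ T, r h ∈ T) → (∀ h ∈ T, r h ≠ h) →
      (∀ h ∈ T, f h + f (r h) + f (r (r h)) = 0) → ∑ h ∈ T, f h = 0 := by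
  induction m using Nat.strong_induction_on with
  | _ m ih =>
    intro T hm hT h1 hf
    rcases T.eq_empty_or_nonempty with rfl | ⟨a, ha⟩
    · exact Finset.sum_empty
    have rinj : ∀ u v, r u = r v → u = v := by
      intro u v h
      rw [← h3 u, h, h3 v]
    have a1 : r a ≠ a := h1 a ha
    have a2 : r (r a) ≠ r a := h1 _ (hT a ha)
    have a3 : r (r a) ≠ a := by
      intro h
      have := h3 a
      rw [h] at this
      exact a1 this
    have hO : ({a, r a, r (r a)} : Finset V) ⊆ T := by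
      intro b hb
      rw [Finset.mem_insert, Finset.mem_insert, Finset.mem_singleton] at hb
      rcases hb with rfl | rfl | rfl
      · exact ha
      · exact hT _ ha
      · exact hT _ (hT _ ha)
    rw [← Finset.sum_sdiff hO, ih _ ?_ (T \ {a, r a, r (r a)}) rfl ?_ ?_ ?_, zero_add,
      Finset.sum_insert, Finset.sum_insert, Finset.sum_singleton, ← add_assoc]
    · exact hf a ha
    · rw [Finset.mem_singleton]
      exact a2.symm
    · rw [Finset.mem_insert, Finset.mem_singleton]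
      rintro (h | h)
      · exact a1 h.symm
      · exact a3 h.symm
    · rw [← hm]
      apply Finset.card_lt_card
      refine ⟨Finset.sdiff_subset, fun h => ?_⟩
      exact (Finset.mem_sdiff.1 (h ha)).2 (Finset.mem_insert_self _ _)
    · intro b hb
      obtain ⟨b1, b2⟩ := Finset.mem_sdiff.1 hb
      refine Finset.mem_sdiff.2 ⟨hT b b1, fun b3 => b2 ?_⟩
      rw [Finset.mem_insert, Finset.mem_insert, Finset.mem_singleton] at b3 ⊢
      rcases b3 with h | h | h
      · right; right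
        apply rinj
        rw [h, h3]
      · left
        exact rinj _ _ h
      · right; left
        exact rinj _ _ h
    · exact fun b hb => h1 b (Finset.mem_sdiff.1 hb).1
    · exact fun b hb => hf b (Finset.mem_sdiff.1 hb).1

section

variable [Finite V] {F : (V : Type) → Gr V n → M} (hF : Rel F) (G : Gr V (n + 1))
  (i : Fin (n + 1))

include hF

theorem F_other (h : V) : F _ (G.ins i (G.e h)) = - F _ (G.ins i h) := by
  have h1 := hF.iso (V ⊕ Bool) (V ⊕ Bool) (xy V) (G.ins i h)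
  rw [map_xy, hF.as (V ⊕ Bool) _ _ (by rw [ins_r, insR_x]; simp)] at h1
  rw [← h1, neg_neg]

theorem F_self (h2 : ∀ v : M, v + v = 0 → v = 0) : F _ (G.ins i (G.leg i)) = 0 := by
  obtain ⟨φ, hφ⟩ := exists_self G i
  have h1 := hF.iso (V ⊕ Bool) (V ⊕ Bool) φ (G.ins i (G.leg i))
  rw [hφ, hF.as (V ⊕ Bool) _ _ (by rw [ins_r, insR_x]; simp)] at h1
  apply h2
  nth_rewrite 1 [← h1]
  exact neg_add_cancel _

theorem F_around {h : V} (hh : G.r h ≠ h) :
    F _ (G.ins i h) + F _ (G.ins i (G.r h)) + F _ (G.ins i (G.r (G.r h))) = 0 := by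
  obtain ⟨J, X, ψ, ψ', hl, hJ, hX⟩ := exists_loc G i hh
  have h1 := hF.ihx (V ⊕ Bool) _ _ _ _ hl
  rw [hJ, hX, hF.iso, hF.iso, hF.as (V ⊕ Bool) _ _ (by rw [ins_r, insR_x]; simp)] at h1
  rw [h1]
  abel

/-- Kirchhoff's law: for every union `S` of components the sum of the values over the legs in `S`
is zero. -/
theorem kirchhoff (S : Set V) [DecidablePred (· ∈ S)]
    (he : ∀ v ∈ S, G.e v ∈ S) (hr : ∀ v ∈ S, G.r v ∈ S) :
    ∑ k : Fin (n + 1), (if G.leg k ∈ S then F _ (G.ins i (G.leg k)) else 0) = 0 := by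
  classical
  have := Fintype.ofFinite V
  -- the sum over the set is zero
  have s1 : ∑ h ∈ Finset.univ.filter (fun h => h ∈ S), F _ (G.ins i h) = 0 := by
    refine Finset.sum_involution (fun h _ => G.e h) ?_ ?_ ?_ ?_
    · intro h _
      rw [F_other hF]
      exact add_neg_cancel _
    · intro h _ _
      exact G.e1 h
    · intro h hh
      rw [Finset.mem_filter] at hh ⊢
      exact ⟨Finset.mem_univ _, he h hh.2⟩
    · intro h _
      exact G.e2 h
  -- the sum over the trivalent vertices is zero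
  have s2 : ∑ h ∈ (Finset.univ.filter (fun h => h ∈ S)).filter (fun h => G.r h ≠ h),
      F _ (G.ins i h) = 0 := by
    refine sum_triples (G.r : V → V) (fun h => F _ (G.ins i h)) G.r3 _ _ rfl ?_ ?_ ?_
    · intro h hh
      rw [Finset.mem_filter, Finset.mem_filter] at hh ⊢
      exact ⟨⟨Finset.mem_univ _, hr h hh.1.2⟩, fun h1 => hh.2 (G.r_inj h1)⟩
    · intro h hh
      exact (Finset.mem_filter.1 hh).2
    · intro h hh
      exact F_around hF G i (Finset.mem_filter.1 hh).2
  rw [← Finset.sum_filter_add_sum_filter_not _ (fun h => G.r h ≠ h), s2, zero_add] at s1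
  rw [← Finset.sum_filter, ← s1]
  have s3 : (Finset.univ.filter (fun h => h ∈ S)).filter (fun h => ¬ G.r h ≠ h) =
      (Finset.univ.filter (fun k => G.leg k ∈ S)).image G.leg := by
    ext h
    rw [Finset.mem_filter, Finset.mem_filter, not_not, Finset.mem_image]
    constructor
    · rintro ⟨⟨_, h1⟩, h3⟩
      obtain ⟨k, rfl⟩ := (G.fix h).1 h3
      exact ⟨k, Finset.mem_filter.2 ⟨Finset.mem_univ _, h1⟩, rfl⟩
    · rintro ⟨k, hk, rfl⟩
      exact ⟨⟨Finset.mem_univ _, (Finset.mem_filter.1 hk).2⟩, G.r_leg k⟩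
  rw [s3, Finset.sum_image fun a _ b _ h => G.inj h]

end

end Pool.Agent.SWT58
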