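import Mathlib
import Pool.Agent.SWT58.Kir
import Pool.Agent.SWT93.Stmts

/-!
# The full turn of a leg
-/

set_option autoImplicit false

namespace Pool.Agent.SWT58

open Pool.Agent.SWT49 Pool.Agent.SWT80 Pool.Agent.SWT80.Gr Pool.Agent.SWT93

variable {V M : Type} {n : ℕ} [AddCommGroup M]

section

variable (G : Gr V (n + 1)) (i : Fin n)

/-- Merging two legs: the first one is put on the edge of the second one. -/
theorem exists_mg_left : ∃ φ : V ⊕ Bool ≃ V ⊕ Bool,
    (G.mg i).map φ = G.ins i.castSucc (G.leg i.succ) := by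
  classical
  have gx : Equiv.swap (Sum.inl (G.leg i.succ)) (Sum.inr true) (Sum.inr false) =
      (Sum.inr false : V ⊕ Bool) :=
    Equiv.swap_apply_of_ne_of_ne Sum.inr_ne_inl (by simp)
  have gq : Equiv.swap (Sum.inl (G.leg i.succ)) (Sum.inr true) (Sum.inl (G.leg i.succ)) =
      (Sum.inr true : V ⊕ Bool) := Equiv.swap_apply_left _ _
  have gy : Equiv.swap (Sum.inl (G.leg i.succ)) (Sum.inr true) (Sum.inr true) =
      (Sum.inl (G.leg i.succ) : V ⊕ Bool) := Equiv.swap_apply_right _ _
  have gl : ∀ v, v ≠ G.leg i.succ → Equiv.swap (Sum.inl (G.leg i.succ)) (Sum.inr true)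
      (Sum.inl v) = (Sum.inl v : V ⊕ Bool) := fun v hv =>
    Equiv.swap_apply_of_ne_of_ne (fun h1 => hv (Sum.inl.inj h1)) Sum.inl_ne_inr
  have hpq : G.leg i.castSucc ≠ G.leg i.succ := G.leg_ne (cs_ne i)
  refine ⟨Equiv.swap (Sum.inl (G.leg i.succ)) (Sum.inr true), ?_⟩
  refine map_eq ?_ ?_ ?_
  · rintro (v | t)
    · rw [mg_e_inl, ins_e]
      by_cases h1 : v = G.leg i.succ
      · rw [h1, gq, insE_y, gl _ (G.e1 _)]
      by_cases h2 : v = G.e (G.leg i.succ)
      · rw [gl _ h1, h2, insE_eh, G.e2, gq]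
      rw [gl _ h1, insE_o G h1 h2, gl]
      intro h3
      apply h2
      rw [← h3, G.e2]
    · cases t
      · rw [mg_e_inr, ins_e, gx, insE_x]
        exact gy.symm
      · rw [mg_e_inr, ins_e, gy, insE_h]
        exact gx.symm
  · rintro (v | t)
    · by_cases h1 : v = G.leg i.castSucc
      · rw [h1, mg_r_p, gl _ hpq, ins_r, insR_p, gx]
      by_cases h2 : v = G.leg i.succ
      · rw [h2, mg_r_q, gq, ins_r, insR_y, gl _ hpq]
      rw [mg_r_o G i h1 h2, gl _ h2, ins_r, insR_o G h1, gl _ (r_ne G (G.r_leg _) h2)]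
    · cases t
      · rw [mg_r_x, gx, ins_r, insR_x, gq]
      · rw [mg_r_y, gy, ins_r, insR_o G hpq.symm, G.r_leg]
  · intro k
    rw [ins_leg, mg_leg]
    rcases lt_trichotomy k i with h | h | h
    · rw [G.mgL_lt h, gl, Fin.succAbove_of_castSucc_lt _ _ (Fin.castSucc_lt_castSucc_iff.2 h)]
      exact G.leg_ne fun h1 => by
        have := congrArg Fin.val h1
        rw [Fin.lt_def] at h
        simp only [Fin.val_castSucc, Fin.val_succ] at this
        omega
    · rw [h, G.mgL_self, gy, Fin.succAbove_castSucc_self]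
    · rw [G.mgL_gt h, gl, Fin.succAbove_of_le_castSucc _ _
        (Fin.castSucc_le_castSucc_iff.2 h.le)]
      exact G.leg_ne fun h1 => h.ne' (Fin.succ_injective _ h1)

/-- Merging two legs: the second one is put on the edge of the first one. -/
theorem exists_mg_right : ∃ φ : V ⊕ Bool ≃ V ⊕ Bool,
    (G.mg i).map φ = (G.ins i.succ (G.leg i.castSucc)).flip (Sum.inr false) := by
  classical
  have gx : Equiv.swap (Sum.inl (G.leg i.castSucc)) (Sum.inr true) (Sum.inr false) =
      (Sum.inr false : V ⊕ Bool) :=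
    Equiv.swap_apply_of_ne_of_ne Sum.inr_ne_inl (by simp)
  have gq : Equiv.swap (Sum.inl (G.leg i.castSucc)) (Sum.inr true)
      (Sum.inl (G.leg i.castSucc)) = (Sum.inr true : V ⊕ Bool) := Equiv.swap_apply_left _ _
  have gy : Equiv.swap (Sum.inl (G.leg i.castSucc)) (Sum.inr true) (Sum.inr true) =
      (Sum.inl (G.leg i.castSucc) : V ⊕ Bool) := Equiv.swap_apply_right _ _
  have gl : ∀ v, v ≠ G.leg i.castSucc → Equiv.swap (Sum.inl (G.leg i.castSucc)) (Sum.inr true)
      (Sum.inl v) = (Sum.inl v : V ⊕ Bool) := fun v hv =>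
    Equiv.swap_apply_of_ne_of_ne (fun h1 => hv (Sum.inl.inj h1)) Sum.inl_ne_inr
  have hpq : G.leg i.castSucc ≠ G.leg i.succ := G.leg_ne (cs_ne i)
  refine ⟨Equiv.swap (Sum.inl (G.leg i.castSucc)) (Sum.inr true), ?_⟩
  refine map_eq ?_ ?_ ?_
  · rintro (v | t)
    · rw [mg_e_inl, flip_e, ins_e]
      by_cases h1 : v = G.leg i.castSucc
      · rw [h1, gq, insE_y, gl _ (G.e1 _)]
      by_cases h2 : v = G.e (G.leg i.castSucc)
      · rw [gl _ h1, h2, insE_eh, G.e2, gq]
      rw [gl _ h1, insE_o G h1 h2, gl]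
      intro h3
      apply h2
      rw [← h3, G.e2]
    · cases t
      · rw [mg_e_inr, flip_e, ins_e, gx, insE_x]
        exact gy.symm
      · rw [mg_e_inr, flip_e, ins_e, gy, insE_h]
        exact gx.symm
  · rintro (v | t)
    · by_cases h1 : v = G.leg i.castSucc
      · rw [h1, mg_r_p, gq, fl_y, gx]
      by_cases h2 : v = G.leg i.succ
      · rw [h2, mg_r_q, gl _ hpq.symm, fl_p, gq]
      rw [mg_r_o G i h1 h2, gl _ h1, fl_o G _ _ h2, gl _ (r_ne G (G.r_leg _) h1)]
    · cases t
      · rw [mg_r_x, gx, fl_x, gl _ hpq.symm]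
      · rw [mg_r_y, gy, fl_o G _ _ hpq, G.r_leg]
  · intro k
    rw [flip_leg, ins_leg, mg_leg]
    rcases lt_trichotomy k i with h | h | h
    · rw [G.mgL_lt h, gl, Fin.succAbove_of_castSucc_lt _ _
        ((Fin.castSucc_lt_castSucc_iff.2 h).trans Fin.castSucc_lt_succ)]
      exact G.leg_ne fun h1 => h.ne (Fin.castSucc_injective _ h1)
    · rw [h, G.mgL_self, gy, Fin.succAbove_succ_self]
    · rw [G.mgL_gt h, gl, Fin.succAbove_of_le_castSucc _ _ (Fin.succ_le_castSucc_iff.2 h)]
      exact G.leg_ne fun h1 => by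
        have := congrArg Fin.val h1
        rw [Fin.lt_def] at h
        simp only [Fin.val_castSucc, Fin.val_succ] at this
        omega

end

section

variable [Finite V] {F : (V : Type) → Gr V n → M} (hF : Rel F) (G : Gr V (n + 1))

include hF

theorem F_mg_left (i : Fin n) : F _ (G.mg i) = F _ (G.ins i.castSucc (G.leg i.succ)) := by
  obtain ⟨φ, hφ⟩ := exists_mg_left G i
  rw [← hφ, hF.iso]

theorem F_mg_right (i : Fin n) : F _ (G.mg i) = - F _ (G.ins i.succ (G.leg i.castSucc)) := by
  obtain ⟨φ, hφ⟩ := exists_mg_right G i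
  rw [← hF.iso (V ⊕ Bool) (V ⊕ Bool) φ, hφ, hF.as (V ⊕ Bool) _ _ (by rw [ins_r, insR_x]; simp)]

/-- The full turn. -/
theorem turn (h2 : ∀ v : M, v + v = 0 → v = 0)
    (I : Equiv.Perm (Fin (n + 1)) → Gr V (n + 1) → M)
    (hI : IsInt (fun (G : Gr V (n + 1)) i => F (V ⊕ Bool) (G.mg i)) I) :
    I (finRotate (n + 1)) G = 0 := by
  classical
  have key : ∀ t : Fin (n + 1), ∃ g : Equiv.Perm (Fin (n + 1)), g⁻¹ t = Fin.last n ∧
      (∀ k : Fin n, g⁻¹ (t.succAbove k) = k.castSucc) ∧
      I g G = ∑ k : Fin n, if t ≤ k.castSucc then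
        F _ (G.ins (Fin.last n) (G.leg k.castSucc)) else 0 := by
    intro t
    induction t using Fin.reverseInduction with
    | last =>
      refine ⟨1, rfl, fun k => ?_, ?_⟩
      · rw [inv_one, Equiv.Perm.one_apply, Fin.succAbove_last]
      · rw [hI.one]
        symm
        apply Finset.sum_eq_zero
        intro k _
        rw [if_neg]
        exact not_le.2 (Fin.castSucc_lt_last k)
    | cast j ih =>
      obtain ⟨g, g1, g2, g3⟩ := ih
      have hs : ∀ k : Fin n, s j (j.castSucc.succAbove k) = j.succ.succAbove k := by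
        intro k
        rcases lt_trichotomy k j with h | h | h
        · rw [Fin.succAbove_of_castSucc_lt _ _ (Fin.castSucc_lt_castSucc_iff.2 h),
            Fin.succAbove_of_castSucc_lt _ _
              ((Fin.castSucc_lt_castSucc_iff.2 h).trans Fin.castSucc_lt_succ)]
          apply Equiv.swap_apply_of_ne_of_ne
          · exact fun h1 => h.ne (Fin.castSucc_injective _ h1)
          · exact ((Fin.castSucc_lt_castSucc_iff.2 h).trans Fin.castSucc_lt_succ).ne
        · rw [h, Fin.succAbove_castSucc_self, Fin.succAbove_succ_self, s_succ]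
        · rw [Fin.succAbove_of_le_castSucc _ _ (Fin.castSucc_le_castSucc_iff.2 h.le),
            Fin.succAbove_of_le_castSucc _ _ (Fin.succ_le_castSucc_iff.2 h)]
          apply Equiv.swap_apply_of_ne_of_ne
          · intro h1
            have := congrArg Fin.val h1
            rw [Fin.lt_def] at h
            simp only [Fin.val_castSucc, Fin.val_succ] at this
            omega
          · exact fun h1 => h.ne' (Fin.succ_injective _ h1)
      refine ⟨s j * g, ?_, ?_, ?_⟩
      · rw [mul_inv_rev, Equiv.Perm.mul_apply, s_inv, s_castSucc, g1]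
      · intro k
        rw [mul_inv_rev, Equiv.Perm.mul_apply, s_inv, hs, g2]
      · have e1 := hI.step g G j
        have e2 : I (s j * g) G = I g G - F _ ((g • G).mg j) := by
          rw [← e1]
          abel
        have e3 : (g • G).ins j.succ ((g • G).leg j.castSucc) =
            G.ins (Fin.last n) (G.leg j.castSucc) := by
          have h1 : (g • G).leg j.castSucc = G.leg j.castSucc := by
            rw [smul_leg]
            have := g2 j
            rw [Fin.succAbove_succ_self] at this
            rw [this]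
          have h3 : (g • G).leg j.succ = G.leg (Fin.last n) := by
            rw [smul_leg, g1]
          refine Gr.ext (Equiv.ext fun w => ?_) (Equiv.ext fun w => ?_) (funext fun k => ?_)
          · rw [ins_e, ins_e, h1]
            rfl
          · rw [ins_r, ins_r, h3]
            rfl
          · rw [ins_leg, ins_leg, smul_leg, g2, Fin.succAbove_last]
        rw [e2, F_mg_right hF, e3, g3, sub_neg_eq_add]
        have e4 : F _ (G.ins (Fin.last n) (G.leg j.castSucc)) = ∑ k : Fin n, if k = j then
            F _ (G.ins (Fin.last n) (G.leg k.castSucc)) else 0 := by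
          rw [Finset.sum_ite_eq' Finset.univ j, if_pos (Finset.mem_univ _)]
        rw [e4, ← Finset.sum_add_distrib]
        refine Finset.sum_congr rfl fun k _ => ?_
        rcases lt_trichotomy k j with h | h | h
        · rw [if_neg (not_le.2 ((Fin.castSucc_lt_castSucc_iff.2 h).trans Fin.castSucc_lt_succ)),
            if_neg h.ne, if_neg (not_le.2 (Fin.castSucc_lt_castSucc_iff.2 h)), add_zero]
        · rw [h, if_neg (not_le.2 Fin.castSucc_lt_succ), if_pos rfl, if_pos le_rfl, zero_add]
        · rw [if_pos (Fin.succ_le_castSucc_iff.2 h), if_neg h.ne',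
            if_pos (Fin.castSucc_le_castSucc_iff.2 h.le), add_zero]
  obtain ⟨g, g1, g2, g3⟩ := key 0
  have hg : g = finRotate (n + 1) := by
    apply inv_injective
    ext k
    congr 1
    refine Fin.cases ?_ (fun k => ?_) k
    · rw [g1, Equiv.Perm.eq_inv_iff_eq, finRotate_last]
    · have := g2 k
      rw [Fin.zero_succAbove] at this
      rw [this, Equiv.Perm.eq_inv_iff_eq]
      exact Fin.ext (by rw [finRotate_apply]; simp)
  rw [← hg, g3]
  have hk := kirchhoff hF G (Fin.last n) Set.univ (fun _ _ => trivial) (fun _ _ => trivial)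
  simp only [Set.mem_univ, if_true] at hk
  rw [Fin.sum_univ_castSucc, F_self hF G _ h2, add_zero] at hk
  rw [← hk]
  refine Finset.sum_congr rfl fun k _ => ?_
  rw [if_pos (Fin.zero_le _)]

omit [Finite V] hF in
/-- The field `rot` of `Form` for the differences of level `n + 1`. -/
theorem rot (hM : Half M) (hF : Rel F) : ∀ (V : Type) [Finite V]
    (I : Equiv.Perm (Fin (n + 1)) → Gr V (n + 1) → M),
    IsInt (fun (G : Gr V (n + 1)) i => F (V ⊕ Bool) (G.mg i)) I →
    ∀ G, I (finRotate (n + 1)) G = 0 :=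
  fun _ _ I hI G => turn hF G hM.uniq I hI

end

end Pool.Agent.SWT58
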