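import Mathlib
import Pool.Agent.SWT65.Ops
import Pool.Agent.SWT80.Fields
import Pool.Agent.SWT58.Kir

/-!
# The symmetry of the chords, and the sum over the ends of a chord
-/

set_option autoImplicit false

namespace Pool.Agent.SWT58

open Equiv Pool.Agent.SWT49 Pool.Agent.SWT80 Pool.Agent.SWT80.Gr Pool.Agent.SWT93
  Pool.Agent.SWT65

namespace Chord

variable {V M : Type} {n : ℕ} [AddCommGroup M]

/-! ### The legs of a merged graph with a new leg -/

theorem sa_self (p : Fin n) : p.castSucc.succAbove p = p.succ := by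
  simp

theorem add_leg_new (G : Gr V n) (j : Fin (n + 1)) (h : V) : (add G j h).leg j = Sum.inr 3 :=
  addL_new G j

theorem add_leg_old (G : Gr V n) (j : Fin (n + 1)) (h : V) (i : Fin n) :
    (add G j h).leg (j.succAbove i) = Sum.inl (G.leg i) := addL_old G j i

theorem add_leg_succ (G : Gr V n) (p : Fin n) (h : V) :
    (add G p.castSucc h).leg p.succ = Sum.inl (G.leg p) := by
  rw [← sa_self p, add_leg_old]

theorem mg_add_leg_self (G : Gr V n) (p : Fin n) (h : V) :
    ((add G p.castSucc h).mg p).leg p = Sum.inr true := mgL_self _ _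

theorem mg_add_leg (G : Gr V n) {p k : Fin n} (hk : k ≠ p) (h : V) :
    ((add G p.castSucc h).mg p).leg k = Sum.inl (Sum.inl (G.leg k)) := by
  rw [mg_leg]
  rcases lt_trichotomy k p with h1 | h1 | h1
  · rw [mgL_lt _ h1]
    have h2 : p.castSucc.succAbove k = k.castSucc :=
      Fin.succAbove_of_castSucc_lt _ _ (Fin.castSucc_lt_castSucc_iff.2 h1)
    rw [← h2, add_leg_old]
  · exact absurd h1 hk
  · rw [mgL_gt _ h1]
    have h2 : p.castSucc.succAbove k = k.succ :=
      Fin.succAbove_of_le_castSucc _ _ (Fin.castSucc_le_castSucc_iff.2 h1.le)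
    rw [← h2, add_leg_old]

/-! ### The isomorphism -/

open Classical in
/-- The exchange of the two ends of the chord. -/
noncomputable def chF (d f : V) : (V ⊕ Fin 4) ⊕ Bool → (V ⊕ Fin 4) ⊕ Bool
  | Sum.inl (Sum.inl v) => if v = d then Sum.inr true else if v = f then Sum.inl (Sum.inr 1) else
      Sum.inl (Sum.inl v)
  | Sum.inl (Sum.inr 0) => Sum.inr false
  | Sum.inl (Sum.inr 1) => Sum.inl (Sum.inl d)
  | Sum.inl (Sum.inr 2) => Sum.inl (Sum.inr 3)
  | Sum.inl (Sum.inr 3) => Sum.inl (Sum.inr 2)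
  | Sum.inr false => Sum.inl (Sum.inr 0)
  | Sum.inr true => Sum.inl (Sum.inl f)

theorem chF_d (d f : V) : chF d f (Sum.inl (Sum.inl d)) = Sum.inr true := if_pos rfl

theorem chF_f {d f : V} (h : f ≠ d) : chF d f (Sum.inl (Sum.inl f)) = Sum.inl (Sum.inr 1) :=
  (if_neg h).trans (if_pos rfl)

theorem chF_o {d f v : V} (h1 : v ≠ d) (h2 : v ≠ f) :
    chF d f (Sum.inl (Sum.inl v)) = Sum.inl (Sum.inl v) := (if_neg h1).trans (if_neg h2)

theorem chF_inv {d f : V} (h : d ≠ f) (w : (V ⊕ Fin 4) ⊕ Bool) : chF f d (chF d f w) = w := by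
  rcases w with (v | t) | t
  · by_cases h1 : v = d
    · subst h1
      rw [chF_d]
      rfl
    by_cases h2 : v = f
    · subst h2
      rw [chF_f h1]
      rfl
    rw [chF_o h1 h2, chF_o h2 h1]
  · fin_cases t
    · rfl
    · exact chF_f h
    · rfl
    · rfl
  · cases t
    · rfl
    · exact chF_d f d

/-- The exchange of the two ends of the chord, as a permutation. -/
noncomputable def ch {d f : V} (h : d ≠ f) : (V ⊕ Fin 4) ⊕ Bool ≃ (V ⊕ Fin 4) ⊕ Bool where
  toFun := chF d f
  invFun := chF f d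
  left_inv := chF_inv h
  right_inv := chF_inv h.symm

theorem map_ch (G : Gr V n) {j p : Fin n} (h : G.leg j ≠ G.leg p) (hjp : j ≠ p) :
    ((add G p.castSucc (G.leg j)).mg p).map (ch h) = (add G j.castSucc (G.leg p)).mg j := by
  obtain ⟨d, hd⟩ : ∃ d, d = G.leg j := ⟨_, rfl⟩
  obtain ⟨f, hf⟩ : ∃ f, f = G.leg p := ⟨_, rfl⟩
  have hrd : G.r d = d := by rw [hd, G.r_leg]
  have hrf : G.r f = f := by rw [hf, G.r_leg]
  have hdf : d ≠ f := by rw [hd, hf]; exact h
  -- the graphs
  have hp1 : (add G p.castSucc (G.leg j)).leg p.castSucc = Sum.inr 3 := add_leg_new _ _ _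
  have hp2 : (add G p.castSucc (G.leg j)).leg p.succ = Sum.inl f := by
    rw [add_leg_succ, hf]
  have hj1 : (add G j.castSucc (G.leg p)).leg j.castSucc = Sum.inr 3 := add_leg_new _ _ _
  have hj2 : (add G j.castSucc (G.leg p)).leg j.succ = Sum.inl d := by
    rw [add_leg_succ, hd]
  refine map_eq ?_ ?_ ?_
  · intro w
    show ((add G j.castSucc (G.leg p)).mg j).e (chF (G.leg j) (G.leg p) w) =
      chF (G.leg j) (G.leg p) _
    rw [← hd, ← hf]
    rcases w with (v | t) | t
    · show _ = chF d f (Sum.inl (addE G d (Sum.inl v)))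
      by_cases h1 : v = d
      · rw [h1, chF_d, addE_h]
        rfl
      by_cases h2 : v = f
      · rw [h2, chF_f hdf.symm]
        show Sum.inl (addE G f (Sum.inr 1)) = _
        show Sum.inl (Sum.inl (G.e f)) = _
        by_cases h3 : f = G.e d
        · rw [h3, addE_eh, G.e2]
          rfl
        · rw [addE_o G hdf.symm h3, chF_o _ (G.e1 f)]
          intro h4
          apply h3
          rw [← h4, G.e2]
      rw [chF_o h1 h2]
      show Sum.inl (addE G f (Sum.inl v)) = _
      by_cases h3 : v = G.e d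
      · have h5 : G.e d ≠ G.e f := fun h6 => hdf (G.e_inj h6)
        rw [h3] at h2 ⊢
        rw [addE_eh, addE_o G h2 h5, G.e2]
        rfl
      by_cases h4 : v = G.e f
      · rw [h4] at h1 h3 ⊢
        rw [addE_eh, addE_o G h1 h3, G.e2, chF_f hdf.symm]
      rw [addE_o G h2 h4, addE_o G h1 h3, chF_o]
      · intro h5
        apply h3
        rw [← h5, G.e2]
      · intro h5
        apply h4
        rw [← h5, G.e2]
    · fin_cases t
      · show Sum.inr true = chF d f (Sum.inl (Sum.inl d))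
        rw [chF_d]
      · show Sum.inl (addE G f (Sum.inl d)) = chF d f (Sum.inl (Sum.inl (G.e d)))
        by_cases h3 : d = G.e f
        · have h4 : G.e d = f := by rw [h3, G.e2]
          rw [h4, chF_f hdf.symm, h3, addE_eh]
        · rw [addE_o G hdf h3, chF_o (G.e1 d)]
          intro h5
          apply h3
          rw [← h5, G.e2]
      · rfl
      · rfl
    · cases t
      · rfl
      · show Sum.inl (addE G f (Sum.inl f)) = _
        rw [addE_h]
        rfl
  · intro w
    show ((add G j.castSucc (G.leg p)).mg j).r (chF (G.leg j) (G.leg p) w) =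
      chF (G.leg j) (G.leg p) _
    rw [← hd, ← hf]
    have m1 : ∀ u, ((add G j.castSucc (G.leg p)).mg j).r u =
        mgR (add G j.castSucc (G.leg p)) (Sum.inr 3) (Sum.inl d) u := by
      intro u
      rw [mg_r, hj1, hj2]
    have m2 : ∀ u, ((add G p.castSucc (G.leg j)).mg p).r u =
        mgR (add G p.castSucc (G.leg j)) (Sum.inr 3) (Sum.inl f) u := by
      intro u
      rw [mg_r, hp1, hp2]
    rw [← hf] at m1
    rw [← hd] at m2
    rw [m1, m2]
    have n3 : ∀ v : V, (Sum.inr 3 : V ⊕ Fin 4) ≠ Sum.inl v := fun v => Sum.inr_ne_inl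
    rcases w with (v | t) | t
    · by_cases h1 : v = d
      · rw [h1, chF_d, mgR_o _ (Sum.inl_ne_inr) (fun h5 => hdf (Sum.inl.inj h5))]
        show Sum.inr true = chF d f (Sum.inl (Sum.inl (G.r d)))
        rw [hrd, chF_d]
      by_cases h2 : v = f
      · rw [h2, chF_f hdf.symm, mgR_q _ (n3 f), mgR_o _ (by simp) (by simp)]
        rfl
      rw [chF_o h1 h2, mgR_o _ Sum.inl_ne_inr (fun h5 => h1 (Sum.inl.inj h5)),
        mgR_o _ Sum.inl_ne_inr (fun h5 => h2 (Sum.inl.inj h5))]
      show Sum.inl (Sum.inl (G.r v)) = chF d f (Sum.inl (Sum.inl (G.r v)))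
      rw [chF_o (r_ne G hrd h1) (r_ne G hrf h2)]
    · fin_cases t
      · show mgR (add G j.castSucc f) (Sum.inr 3) (Sum.inl d) (Sum.inr false) =
          chF d f (mgR (add G p.castSucc d) (Sum.inr 3) (Sum.inl f) (Sum.inl (Sum.inr 0)))
        rw [mgR_x, mgR_o _ (by simp) (by simp)]
        rfl
      · show mgR (add G j.castSucc f) (Sum.inr 3) (Sum.inl d) (Sum.inl (Sum.inl d)) =
          chF d f (mgR (add G p.castSucc d) (Sum.inr 3) (Sum.inl f) (Sum.inl (Sum.inr 1)))
        rw [mgR_q _ (n3 d), mgR_o _ (by simp) (by simp)]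
        rfl
      · show mgR (add G j.castSucc f) (Sum.inr 3) (Sum.inl d) (Sum.inl (Sum.inr 3)) =
          chF d f (mgR (add G p.castSucc d) (Sum.inr 3) (Sum.inl f) (Sum.inl (Sum.inr 2)))
        rw [mgR_p, mgR_o _ (by simp) (by simp)]
        rfl
      · show mgR (add G j.castSucc f) (Sum.inr 3) (Sum.inl d) (Sum.inl (Sum.inr 2)) =
          chF d f (mgR (add G p.castSucc d) (Sum.inr 3) (Sum.inl f) (Sum.inl (Sum.inr 3)))
        rw [mgR_p, mgR_o _ (by simp) (by simp)]
        rfl
    · cases t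
      · show mgR (add G j.castSucc f) (Sum.inr 3) (Sum.inl d) (Sum.inl (Sum.inr 0)) =
          chF d f (mgR (add G p.castSucc d) (Sum.inr 3) (Sum.inl f) (Sum.inr false))
        rw [mgR_x, mgR_o _ (by simp) (by simp), chF_f hdf.symm]
        rfl
      · show mgR (add G j.castSucc f) (Sum.inr 3) (Sum.inl d) (Sum.inl (Sum.inl f)) =
          chF d f (mgR (add G p.castSucc d) (Sum.inr 3) (Sum.inl f) (Sum.inr true))
        rw [mgR_y, mgR_o _ Sum.inl_ne_inr (fun h5 => hdf.symm (Sum.inl.inj h5))]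
        show Sum.inl (Sum.inl (G.r f)) = Sum.inl (Sum.inl f)
        rw [hrf]
  · intro k
    show _ = chF (G.leg j) (G.leg p) _
    by_cases h1 : k = j
    · rw [h1, mg_add_leg_self, mg_add_leg G hjp, chF_d]
    by_cases h2 : k = p
    · rw [h2, mg_add_leg_self, mg_add_leg G hjp.symm]
      rfl
    rw [mg_add_leg G h1, mg_add_leg G h2, chF_o (G.leg_ne h1) (G.leg_ne h2)]

/-- The symmetry of the chords. -/
theorem chord [Finite V] {F : (V : Type) → Gr V n → M} (hF : Rel F) (G : Gr V n) (j p : Fin n) :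
    F _ ((add G p.castSucc (G.leg j)).mg p) = F _ ((add G j.castSucc (G.leg p)).mg j) := by
  by_cases h : j = p
  · rw [h]
  · rw [← map_ch G (G.leg_ne h) h, hF.iso]

end Chord

end Pool.Agent.SWT58
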